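import Mathlib

/-!
From a dense numerical orbit to a numerically hypercyclic similar operator.
-/

set_option autoImplicit false
open Set Topology Filter

namespace Pool.Agent.V11111.NH

/-- Numerically hypercyclic operators. -/
def NumHyp {Y : Type*} [NormedAddCommGroup Y] [NormedSpace ℂ Y] (S : Y →L[ℂ] Y) : Prop :=
  ∃ (y : Y) (g : StrongDual ℂ Y), ‖y‖ = 1 ∧ ‖g‖ = 1 ∧ g y = 1 ∧
    Dense (Set.range fun n : ℕ => g ((S ^ n) y))

variable {X : Type*} [NormedAddCommGroup X] [NormedSpace ℂ X]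

theorem renorm [CompleteSpace X] (T : X →L[ℂ] X) (x : X) (f : StrongDual ℂ X)
    (h : Dense (range fun n : ℕ => f ((T ^ n) x))) :
    ∃ (x' : X) (f' : StrongDual ℂ X), f' x' = 1 ∧
      Dense (range fun n : ℕ => f' ((T ^ n) x')) := by
  obtain ⟨w, hw, hwr⟩ := h.inter_open_nonempty {w : ℂ | w ≠ 0} isOpen_ne ⟨1, one_ne_zero⟩
  obtain ⟨k, rfl⟩ := hwr
  have hw' : f ((T ^ k) x) ≠ 0 := hw
  have h1 : Dense ((range fun n : ℕ => f ((T ^ n) x)) \
      ((fun n : ℕ => f ((T ^ n) x)) '' (Finset.range k : Set ℕ))) :=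
    h.sdiff_finite ((Finset.finite_toSet _).image _)
  have h2 : DenseRange fun n : ℕ => f ((T ^ (n + k)) x) := by
    apply h1.mono
    rintro _ ⟨⟨n, rfl⟩, hn⟩
    have hkn : k ≤ n := by
      by_contra hlt
      exact hn ⟨n, by simpa using hlt, rfl⟩
    exact ⟨n - k, by simp only; rw [Nat.sub_add_cancel hkn]⟩
  refine ⟨(T ^ k) x, (f ((T ^ k) x))⁻¹ • f, ?_, ?_⟩
  · show (f ((T ^ k) x))⁻¹ * f ((T ^ k) x) = 1
    exact inv_mul_cancel₀ hw'
  · have h3 : Function.Surjective fun w : ℂ => (f ((T ^ k) x))⁻¹ * w := by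
      intro w
      exact ⟨f ((T ^ k) x) * w, by simp only; rw [← mul_assoc, inv_mul_cancel₀ hw', one_mul]⟩
    have h4 := h3.denseRange.comp h2 (by fun_prop)
    have h5 : ((fun w : ℂ => (f ((T ^ k) x))⁻¹ * w) ∘ fun n : ℕ => f ((T ^ (n + k)) x)) =
        fun n : ℕ => ((f ((T ^ k) x))⁻¹ • f) ((T ^ n) ((T ^ k) x)) := by
      funext n
      show (f ((T ^ k) x))⁻¹ * f ((T ^ (n + k)) x) = (f ((T ^ k) x))⁻¹ * f ((T ^ n) ((T ^ k) x))
      rw [pow_add]; rfl
    rw [h5] at h4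
    exact h4

theorem similar [CompleteSpace X] (T : X →L[ℂ] X) (x : X) (f : StrongDual ℂ X) (hfx : f x = 1)
    (h : Dense (range fun n : ℕ => f ((T ^ n) x))) :
    ∃ (J : X ≃L[ℂ] (ℂ × f.ker))
      (S : (ℂ × f.ker) →L[ℂ] (ℂ × f.ker)),
      (∀ v, J.symm (S (J v)) = T v) ∧ NumHyp S := by
  have hri : Function.RightInverse (ContinuousLinearMap.toSpanSingleton ℂ x) f := by
    intro c
    simp [hfx]
  set J := ContinuousLinearEquiv.equivOfRightInverse f (ContinuousLinearMap.toSpanSingleton ℂ x) hri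
    with hJ
  set S : (ℂ × f.ker) →L[ℂ] (ℂ × f.ker) :=
    (J : X →L[ℂ] (ℂ × f.ker)).comp (T.comp (J.symm : (ℂ × f.ker) →L[ℂ] X))
    with hS
  have hSn : ∀ (n : ℕ) (v : X), (S ^ n) (J v) = J ((T ^ n) v) := by
    intro n
    induction n with
    | zero => intro v; simp
    | succ n ih =>
      intro v
      have h1 : (S ^ (n + 1)) (J v) = (S ^ n) (S (J v)) := by rw [pow_succ]; rfl
      have h2 : S (J v) = J (T v) := by
        show J (T (J.symm (J v))) = J (T v)
        rw [ContinuousLinearEquiv.symm_apply_apply]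
      have h3 : (T ^ (n + 1)) v = (T ^ n) (T v) := by rw [pow_succ]; rfl
      rw [h1, h2, ih, h3]
  have hfst : ∀ v, (J v).1 = f v := fun v => rfl
  refine ⟨J, S, ?_, J x, ContinuousLinearMap.fst ℂ ℂ (f.ker), ?_, ?_, ?_, ?_⟩
  · intro v
    show J.symm (J (T (J.symm (J v)))) = T v
    rw [ContinuousLinearEquiv.symm_apply_apply, ContinuousLinearEquiv.symm_apply_apply]
  · have h1 : J x = (1, 0) := by
      rw [← ContinuousLinearEquiv.eq_symm_apply, hJ]
      simp
    rw [h1, Prod.norm_def]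
    simp
  · apply le_antisymm (ContinuousLinearMap.norm_fst_le ℂ ℂ _)
    have h1 := (ContinuousLinearMap.fst ℂ ℂ (f.ker)).le_opNorm (1, 0)
    simpa [Prod.norm_def] using h1
  · show (J x).1 = 1
    rw [hfst, hfx]
  · have : (fun n : ℕ => (ContinuousLinearMap.fst ℂ ℂ (f.ker)) ((S ^ n) (J x))) =
        fun n : ℕ => f ((T ^ n) x) := by
      funext n
      rw [hSn]; rfl
    rw [this]; exact h

end Pool.Agent.V11111.NH
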