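import Mathlib

/-!
Operators without dense numerical orbits: a lower bound on an open set.
-/

set_option autoImplicit false
open Set Topology Filter

namespace Pool.Agent.V11111.NH

variable {E : Type*} [NormedAddCommGroup E] [NormedSpace ℂ E]

/-- An affine function of one complex variable without zeros in the closed unit disc. -/
theorem affine_ne {a b : ℂ} (h : ∀ t : ℂ, ‖t‖ ≤ 1 → a + t * b ≠ 0) : ‖b‖ ≤ ‖a‖ := by
  by_contra hlt
  rw [not_le] at hlt
  have hb : b ≠ 0 := fun h0 => by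
    rw [h0, norm_zero] at hlt
    exact absurd hlt (not_lt.2 (norm_nonneg _))
  apply h (-(a / b))
  · rw [norm_neg, norm_div]
    exact div_le_one_of_le₀ hlt.le (norm_nonneg _)
  · field_simp
    ring

theorem norm_le_of_ball {F : Type*} [NormedAddCommGroup F] [NormedSpace ℂ F] (S : E →L[ℂ] F)
    {δ C : ℝ} (hδ : 0 < δ) (hC : 0 ≤ C) (h : ∀ z : E, ‖z‖ < δ → ‖S z‖ ≤ C) : δ * ‖S‖ ≤ C := by
  have h1 : ‖S‖ ≤ C / δ := by
    apply ContinuousLinearMap.opNorm_le_bound _ (by positivity)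
    intro z
    rw [div_mul_eq_mul_div, le_div_iff₀ hδ]
    by_contra hlt
    rw [not_le] at hlt
    have hz : 0 < ‖z‖ := by
      by_contra h0
      have h2 : z = 0 := norm_le_zero_iff.1 (not_lt.1 h0)
      rw [h2] at hlt
      simp at hlt
    have hS : 0 < ‖S z‖ := by
      by_contra h0
      have h2 : ‖S z‖ = 0 := le_antisymm (not_lt.1 h0) (norm_nonneg _)
      rw [h2, zero_mul] at hlt
      exact absurd hlt (not_lt.2 (by positivity))
    obtain ⟨τ, hτ1, hτ2⟩ := exists_between (show C * ‖z‖ / ‖S z‖ < δ by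
      rw [div_lt_iff₀ hS]; linarith)
    have hτ0 : 0 ≤ τ := le_trans (by positivity) hτ1.le
    have h3 := h (((τ / ‖z‖ : ℝ) : ℂ) • z) (by
      rw [norm_smul, Complex.norm_real, Real.norm_of_nonneg (by positivity),
        div_mul_cancel₀ _ hz.ne']
      exact hτ2)
    rw [map_smul, norm_smul, Complex.norm_real, Real.norm_of_nonneg (by positivity),
      div_mul_eq_mul_div, div_le_iff₀ hz] at h3
    rw [div_lt_iff₀ hS] at hτ1
    linarith
  rw [le_div_iff₀ hδ] at h1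
  linarith

/-- The consequence of the Baire category theorem. -/
theorem baire [CompleteSpace E] (T : E →L[ℂ] E)
    (h : ∀ (x : E) (f : StrongDual ℂ E), ¬ Dense (range fun n : ℕ => f ((T ^ n) x))) :
    ∃ (x₀ : E) (f₀ : StrongDual ℂ E) (c : ℂ) (δ ε : ℝ), 0 < δ ∧ 0 < ε ∧
      ∀ (x : E) (f : StrongDual ℂ E) (n : ℕ), ‖x - x₀‖ < δ → ‖f - f₀‖ < δ →
        ε * ‖T ^ n‖ ≤ ‖f ((T ^ n) x) - c‖ := by
  set B := TopologicalSpace.countableBasis ℂ with hB
  have hBb := TopologicalSpace.isBasis_countableBasis ℂ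
  have hBc : B.Countable := TopologicalSpace.countable_countableBasis ℂ
  let G : Set ℂ → Set (E × StrongDual ℂ E) := fun D => ⋃ n : ℕ, {p | p.2 ((T ^ n) p.1) ∈ D}
  have hcont : ∀ n : ℕ, Continuous fun p : E × StrongDual ℂ E => p.2 ((T ^ n) p.1) := fun n => by
    fun_prop
  have hG : ∀ D ∈ B, IsOpen (G D) := fun D hD =>
    isOpen_iUnion fun n => (hBb.isOpen hD).preimage (hcont n)
  have hnot : ∃ D ∈ B, ¬ Dense (G D) := by
    by_contra hall
    push Not at hall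
    have hd : Dense (⋂ D ∈ B, G D) := dense_biInter_of_isOpen hG hBc hall
    obtain ⟨p, hp⟩ := hd.nonempty
    apply h p.1 p.2
    rw [hBb.dense_iff]
    intro D hD _
    have := mem_iInter₂.1 hp D hD
    obtain ⟨n, hn⟩ := mem_iUnion.1 this
    exact ⟨_, hn, n, rfl⟩
  obtain ⟨D, hD, hnd⟩ := hnot
  obtain ⟨c, hc⟩ : D.Nonempty := TopologicalSpace.nonempty_of_mem_countableBasis hD
  rw [dense_iff_inter_open] at hnd
  push Not at hnd
  obtain ⟨W, hWo, ⟨p, hp⟩, hWe⟩ := hnd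
  obtain ⟨δ, hδ, hball⟩ := Metric.isOpen_iff.1 hWo p hp
  have hne : ∀ (x : E) (f : StrongDual ℂ E) (n : ℕ), ‖x - p.1‖ < δ → ‖f - p.2‖ < δ →
      f ((T ^ n) x) - c ≠ 0 := by
    intro x f n hx hf h0
    have hmem : (x, f) ∈ Metric.ball p δ := by
      rw [Metric.mem_ball, Prod.dist_eq, max_lt_iff, dist_eq_norm, dist_eq_norm]
      exact ⟨hx, hf⟩
    have : (x, f) ∈ W ∩ G D := by
      refine ⟨hball hmem, mem_iUnion.2 ⟨n, ?_⟩⟩
      show f ((T ^ n) x) ∈ D
      rw [sub_eq_zero.1 h0]; exact hc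
    rw [hWe] at this
    exact this
  -- two linear arguments
  have key1 : ∀ (x z : E) (f : StrongDual ℂ E) (n : ℕ), ‖x - p.1‖ < δ / 2 → ‖f - p.2‖ < δ →
      ‖z‖ < δ / 2 → ‖f ((T ^ n) z)‖ ≤ ‖f ((T ^ n) x) - c‖ := by
    intro x z f n hx hf hz
    apply affine_ne
    intro t ht
    have h1 := hne (x + t • z) f n (by
      calc ‖x + t • z - p.1‖ = ‖(x - p.1) + t • z‖ := by congr 1; abel
        _ ≤ ‖x - p.1‖ + ‖t • z‖ := norm_add_le _ _
        _ ≤ ‖x - p.1‖ + 1 * ‖z‖ := by rw [norm_smul]; gcongr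
        _ < δ := by linarith) hf
    intro h0
    apply h1
    rw [map_add, map_add, map_smul, map_smul, smul_eq_mul]
    rw [← h0]; ring
  have key2 : ∀ (x : E) (f g : StrongDual ℂ E) (n : ℕ), ‖x - p.1‖ < δ → ‖f - p.2‖ < δ / 2 →
      ‖g‖ < δ / 2 → ‖g ((T ^ n) x)‖ ≤ ‖f ((T ^ n) x) - c‖ := by
    intro x f g n hx hf hg
    apply affine_ne
    intro t ht
    have h1 := hne x (f + t • g) n hx (by
      calc ‖f + t • g - p.2‖ = ‖(f - p.2) + t • g‖ := by congr 1; abel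
        _ ≤ ‖f - p.2‖ + ‖t • g‖ := norm_add_le _ _
        _ ≤ ‖f - p.2‖ + 1 * ‖g‖ := by rw [norm_smul]; gcongr
        _ < δ := by linarith)
    intro h0
    apply h1
    rw [_root_.add_apply, _root_.smul_apply, smul_eq_mul]
    rw [← h0]; ring
  have key3 : ∀ (x z : E) (f g : StrongDual ℂ E) (n : ℕ), ‖x - p.1‖ < δ / 2 →
      ‖f - p.2‖ < δ / 2 → ‖z‖ < δ / 2 → ‖g‖ < δ / 2 →
      ‖g ((T ^ n) z)‖ ≤ 3 * ‖f ((T ^ n) x) - c‖ := by
    intro x z f g n hx hf hz hg
    have h1 := key1 x z f n hx (by linarith) hz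
    have h2 := key2 x f g n (by linarith) hf hg
    have h3 := key2 (x + z) f g n (by
      calc ‖x + z - p.1‖ = ‖(x - p.1) + z‖ := by congr 1; abel
        _ ≤ ‖x - p.1‖ + ‖z‖ := norm_add_le _ _
        _ < δ := by linarith) hf hg
    have h4 : g ((T ^ n) z) = g ((T ^ n) (x + z)) - g ((T ^ n) x) := by
      rw [map_add, map_add]; ring
    have h5 : f ((T ^ n) (x + z)) - c = (f ((T ^ n) x) - c) + f ((T ^ n) z) := by
      rw [map_add, map_add]; ring
    calc ‖g ((T ^ n) z)‖ ≤ ‖g ((T ^ n) (x + z))‖ + ‖g ((T ^ n) x)‖ := by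
          rw [h4]; exact norm_sub_le _ _
      _ ≤ ‖f ((T ^ n) (x + z)) - c‖ + ‖f ((T ^ n) x) - c‖ := add_le_add h3 h2
      _ ≤ (‖f ((T ^ n) x) - c‖ + ‖f ((T ^ n) z)‖) + ‖f ((T ^ n) x) - c‖ := by
          rw [h5]; gcongr; exact norm_add_le _ _
      _ ≤ _ := by linarith
  refine ⟨p.1, p.2, c, δ / 2, (δ / 2) ^ 2 / 3, by positivity, by positivity, ?_⟩
  intro x f n hx hf
  set A := ‖f ((T ^ n) x) - c‖ with hA
  have hA0 : 0 ≤ A := norm_nonneg _
  have hz : ∀ z : E, ‖z‖ < δ / 2 → ‖(T ^ n) z‖ ≤ 3 * A / (δ / 2) := by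
    intro z hz
    obtain ⟨g, hg1, hg2⟩ := exists_dual_vector'' ℂ ((T ^ n) z)
    rw [le_div_iff₀ (by positivity)]
    by_contra hlt
    rw [not_le] at hlt
    -- choose a slightly smaller multiple of g
    have hpos : 0 < ‖(T ^ n) z‖ := by
      by_contra h0
      have : ‖(T ^ n) z‖ = 0 := le_antisymm (not_lt.1 h0) (norm_nonneg _)
      rw [this, zero_mul] at hlt
      linarith
    obtain ⟨τ, hτ1, hτ2⟩ := exists_between (show 3 * A / ‖(T ^ n) z‖ < δ / 2 by
      rw [div_lt_iff₀ hpos]; linarith)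
    have hτ0 : 0 ≤ τ := le_trans (by positivity) hτ1.le
    have h6 := key3 x z f ((τ : ℂ) • g) n hx hf hz (by
      rw [norm_smul, Complex.norm_real, Real.norm_of_nonneg hτ0]
      calc τ * ‖g‖ ≤ τ * 1 := by gcongr
        _ < δ / 2 := by linarith)
    rw [_root_.smul_apply, norm_smul, Complex.norm_real, Real.norm_of_nonneg hτ0, hg2] at h6
    rw [div_lt_iff₀ hpos] at hτ1
    rw [RCLike.norm_ofReal, abs_norm] at h6
    linarith
  have h7 := norm_le_of_ball (T ^ n) (δ := δ / 2) (by positivity) (by positivity) hz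
  rw [le_div_iff₀ (by positivity)] at h7
  nlinarith

end Pool.Agent.V11111.NH
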