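import Pool.Agent.V11111.NH.Mix
import Pool.Agent.V11111.NH.Baire

/-!
The subspace attached to a Hilbert space valued map on the dual.
-/

set_option autoImplicit false
open Set Topology Filter ComplexConjugate

namespace Pool.Agent.V11111.NH

variable {X : Type*} [NormedAddCommGroup X] [NormedSpace ℂ X]
variable {H : Type*} [NormedAddCommGroup H] [InnerProductSpace ℂ H]

theorem norm_comp_pow (T : X →L[ℂ] X) {r : ℝ} (F : StrongDual ℂ X →L[ℂ] H)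
    (hF : ∀ f : StrongDual ℂ X, ‖F (f.comp T)‖ = r * ‖F f‖) (j : ℕ) (f : StrongDual ℂ X) :
    ‖F (f.comp (T ^ j))‖ = r ^ j * ‖F f‖ := by
  induction j generalizing f with
  | zero => 
    have : f.comp (T ^ 0) = f := by ext x; simp
    rw [this]; simp
  | succ j ih =>
    have : f.comp (T ^ (j + 1)) = (f.comp T).comp (T ^ j) := by
      rw [pow_succ']; rfl
    rw [this, ih, hF, pow_succ]; ring

theorem hil_dense [CompleteSpace X] [CompleteSpace H]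
    (hrefl : Function.Surjective (NormedSpace.inclusionInDoubleDual ℂ X))
    (T : X →L[ℂ] X) (hev : ∀ (x : X) (ν : ℂ), T x = ν • x → x = 0)
    (hnum : ∀ (x : X) (f : StrongDual ℂ X), ¬ Dense (range fun n : ℕ => f ((T ^ n) x)))
    {r : ℝ} (hr : 1 ≤ r) (F : StrongDual ℂ X →L[ℂ] H) (hd : DenseRange F)
    (hF : ∀ f : StrongDual ℂ X, ‖F (f.comp T)‖ = r * ‖F f‖) :
    ∃ X₁ : Submodule ℂ X, IsClosed (X₁ : Set X) ∧
      (∃ M : ℝ, 0 ≤ M ∧ ∀ z ∈ X₁, ∀ j : ℕ, ‖(T ^ j) z‖ ≤ M * r ^ j * ‖z‖) ∧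
      (∀ z ∈ X₁, ∀ f : StrongDual ℂ X, Tendsto (fun J : ℕ => (J : ℝ)⁻¹ *
        ∑ j ∈ Finset.range J, (r⁻¹ ^ j * ‖f ((T ^ j) z)‖) ^ 2) atTop (𝓝 0)) ∧
      (∀ g : StrongDual ℂ X, (∀ z ∈ X₁, g z = 0) → F g = 0) := by
  have hr0 : 0 < r := lt_of_lt_of_le one_pos hr
  have hrc : (r : ℂ) ≠ 0 := by exact_mod_cast hr0.ne'
  -- the isometry
  set Ts : StrongDual ℂ X →L[ℂ] StrongDual ℂ X := (ContinuousLinearMap.compL ℂ X X ℂ).flip T
    with hTs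
  have hTsa : ∀ f, Ts f = f.comp T := fun f => rfl
  set e : StrongDual ℂ X →ₗ[ℂ] H := (F : StrongDual ℂ X →ₗ[ℂ] H) with he
  set q : StrongDual ℂ X →ₗ[ℂ] H :=
    (((r : ℂ)⁻¹ • (F.comp Ts) : StrongDual ℂ X →L[ℂ] H) : StrongDual ℂ X →ₗ[ℂ] H) with hq
  have hqa : ∀ f, q f = (r : ℂ)⁻¹ • F (f.comp T) := fun f => rfl
  have hqn : ∀ f, ‖q f‖ = ‖F f‖ := by
    intro f
    rw [hqa, norm_smul, hF, norm_inv, Complex.norm_real, Real.norm_of_nonneg hr0.le]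
    field_simp
  have hde : DenseRange e := hd
  have hbd : ∀ f, ‖q f‖ ≤ 1 * ‖e f‖ := fun f => by rw [hqn, one_mul]; exact le_rfl
  set V : H →L[ℂ] H := q.extendOfNorm e with hV
  have hVF : ∀ f, V (F f) = (r : ℂ)⁻¹ • F (f.comp T) := by
    intro f
    have := LinearMap.extendOfNorm_eq hde ⟨1, hbd⟩ f
    exact this
  have hVn : ∀ u, ‖V u‖ = ‖u‖ := by
    intro u
    refine hd.induction (P := fun u => ‖V u‖ = ‖u‖) ?_ (isClosed_eq (by fun_prop) (by fun_prop)) u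
    rintro _ ⟨f, rfl⟩
    rw [hVF, ← hqa, hqn]
  have hVj : ∀ (j : ℕ) (f : StrongDual ℂ X),
      (V ^ j) (F f) = ((r : ℂ)⁻¹) ^ j • F (f.comp (T ^ j)) := by
    intro j
    induction j with
    | zero =>
      intro f
      have : f.comp (T ^ 0) = f := by ext x; simp
      rw [this]; simp
    | succ j ih =>
      intro f
      have h1 : f.comp (T ^ (j + 1)) = (f.comp T).comp (T ^ j) := by
        rw [pow_succ']; rfl
      have h2 : (V ^ (j + 1)) (F f) = (V ^ j) (V (F f)) := by rw [pow_succ]; rfl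
      rw [h2, hVF, map_smul, ih, h1, smul_smul, pow_succ, mul_comm]
  set W := ContinuousLinearMap.adjoint V with hW
  -- the vectors
  have hy : ∀ h : H, ∃ y : X, ∀ f : StrongDual ℂ X, f y = inner ℂ h (F f) := by
    intro h
    obtain ⟨y, hy⟩ := hrefl ((innerSL ℂ h).comp F)
    refine ⟨y, fun f => ?_⟩
    rw [← NormedSpace.dual_def ℂ X, hy]
    rfl
  have hsep : ∀ y : X, (∀ f : StrongDual ℂ X, f y = 0) → y = 0 := by
    intro y hy0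
    by_contra hne
    obtain ⟨f, hf⟩ := SeparatingDual.exists_ne_zero (R := ℂ) hne
    exact hf (hy0 f)
  have hker : ∀ h : H, (∀ f, (inner ℂ h (F f) : ℂ) = 0) → h = 0 := by
    intro h hh
    have h1 : ∀ u, (inner ℂ h u : ℂ) = 0 := by
      intro u
      refine hd.induction (P := fun u => (inner ℂ h u : ℂ) = 0) ?_
        (isClosed_eq (by fun_prop) (by fun_prop)) u
      rintro _ ⟨f, rfl⟩
      exact hh f
    exact inner_self_eq_zero.1 (h1 h)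
  have hTy : ∀ (h : H) (y : X), (∀ f : StrongDual ℂ X, f y = inner ℂ h (F f)) →
      ∀ f : StrongDual ℂ X, f (T y) = inner ℂ ((r : ℂ) • W h) (F f) := by
    intro h y hhy f
    have h1 : f (T y) = (f.comp T) y := rfl
    have h2 : F (f.comp T) = (r : ℂ) • V (F f) := by
      rw [hVF, smul_smul, mul_inv_cancel₀ hrc, one_smul]
    rw [h1, hhy, h2, inner_smul_right, inner_smul_left, Complex.conj_ofReal, hW,
      ContinuousLinearMap.adjoint_inner_left]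
  have hno : ∀ (h : H) (ν : ℂ), W h = ν • h → h = 0 := by
    intro h ν hν
    obtain ⟨y, hyy⟩ := hy h
    have h1 : T y = ((r : ℂ) * conj ν) • y := by
      rw [← sub_eq_zero]
      apply hsep
      intro f
      rw [map_sub, map_smul, hTy h y hyy, hyy, hν, inner_smul_left, inner_smul_left,
        Complex.conj_ofReal, smul_eq_mul]
      ring
    have h2 := hev y _ h1
    apply hker
    intro f
    rw [← hyy, h2, map_zero]
  let Y₀ : Submodule ℂ X :=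
    { carrier := {y | ∃ h : H, ∀ f : StrongDual ℂ X, f y = inner ℂ h (F f)}
      zero_mem' := ⟨0, fun f => by simp⟩
      add_mem' := by
        rintro a b ⟨h, hh⟩ ⟨k, hk⟩
        exact ⟨h + k, fun f => by rw [map_add, hh, hk, inner_add_left]⟩
      smul_mem' := by
        rintro c a ⟨h, hh⟩
        refine ⟨conj c • h, fun f => ?_⟩
        rw [map_smul, hh, inner_smul_left, smul_eq_mul, Complex.conj_conj] }
  have hY₀T : ∀ y ∈ Y₀, T y ∈ Y₀ := by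
    rintro y ⟨h, hh⟩
    exact ⟨_, hTy h y hh⟩
  set X₁ := Y₀.topologicalClosure with hX₁
  have hX₁T : ∀ z ∈ X₁, T z ∈ X₁ := by
    intro z hz
    exact map_mem_closure T.continuous hz hY₀T
  have hcl : IsClosed (X₁ : Set X) := Submodule.isClosed_topologicalClosure _
  have : CompleteSpace X₁ := hcl.completeSpace_coe
  let T₁ : X₁ →L[ℂ] X₁ := (T.comp X₁.subtypeL).codRestrict X₁ (fun z => hX₁T z z.2)
  have hT₁ : ∀ (j : ℕ) (z : X₁), (((T₁ ^ j) z : X₁) : X) = (T ^ j) (z : X) := by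
    intro j
    induction j with
    | zero => intro z; simp
    | succ j ih =>
      intro z
      have h1 : (T₁ ^ (j + 1)) z = (T₁ ^ j) (T₁ z) := by rw [pow_succ]; rfl
      have h2 : (T ^ (j + 1)) (z : X) = (T ^ j) (T z) := by rw [pow_succ]; rfl
      rw [h1, h2, ih]; rfl
  have hnum₁ : ∀ (x : X₁) (f : StrongDual ℂ X₁), ¬ Dense (range fun n : ℕ => f ((T₁ ^ n) x)) := by
    intro x f hdn
    obtain ⟨g, hg, _⟩ := exists_extension_norm_eq X₁ f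
    apply hnum x g
    have : (fun n : ℕ => g ((T ^ n) (x : X))) = fun n : ℕ => f ((T₁ ^ n) x) := by
      funext n
      rw [← hT₁, hg]
    rw [this]; exact hdn
  have hYn : ∀ y ∈ Y₀, ∃ D : ℝ, 0 ≤ D ∧ ∀ j : ℕ, ‖(T ^ j) y‖ ≤ D * r ^ j := by
    rintro y ⟨h, hh⟩
    refine ⟨‖h‖ * ‖F‖, by positivity, fun j => ?_⟩
    apply NormedSpace.norm_le_dual_bound ℂ _ (by positivity)
    intro f
    have h1 : f ((T ^ j) y) = (f.comp (T ^ j)) y := rfl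
    rw [h1, hh]
    calc ‖(inner ℂ h (F (f.comp (T ^ j))) : ℂ)‖ ≤ ‖h‖ * ‖F (f.comp (T ^ j))‖ :=
          norm_inner_le_norm _ _
      _ = ‖h‖ * (r ^ j * ‖F f‖) := by rw [norm_comp_pow T F hF]
      _ ≤ ‖h‖ * (r ^ j * (‖F‖ * ‖f‖)) := by gcongr; exact F.le_opNorm f
      _ = _ := by ring
  have hM : ∃ M : ℝ, 0 ≤ M ∧ ∀ z ∈ X₁, ∀ j : ℕ, ‖(T ^ j) z‖ ≤ M * r ^ j * ‖z‖ := by
    obtain ⟨x₁, f₁, c, δ, ε, hδ, hε, hb⟩ := baire T₁ hnum₁
    have hx₁ : (x₁ : X) ∈ closure (Y₀ : Set X) := x₁.2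
    obtain ⟨y, hyY, hyd⟩ := Metric.mem_closure_iff.1 hx₁ δ hδ
    obtain ⟨D, hD0, hD⟩ := hYn y hyY
    have hyX : y ∈ X₁ := subset_closure hyY
    have hb1 : ∀ n : ℕ, ε * ‖T₁ ^ n‖ ≤ (‖f₁‖ * D + ‖c‖) * r ^ n := by
      intro n
      have h1 := hb ⟨y, hyX⟩ f₁ n (by
        rw [dist_comm, dist_eq_norm] at hyd
        exact hyd) (by rw [sub_self, norm_zero]; exact hδ)
      have h2 : ‖(T₁ ^ n) ⟨y, hyX⟩‖ ≤ D * r ^ n := by
        show ‖(((T₁ ^ n) ⟨y, hyX⟩ : X₁) : X)‖ ≤ D * r ^ n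
        rw [hT₁]; exact hD n
      have h3 : (1 : ℝ) ≤ r ^ n := one_le_pow₀ hr
      calc ε * ‖T₁ ^ n‖ ≤ ‖f₁ ((T₁ ^ n) ⟨y, hyX⟩) - c‖ := h1
        _ ≤ ‖f₁ ((T₁ ^ n) ⟨y, hyX⟩)‖ + ‖c‖ := norm_sub_le _ _
        _ ≤ ‖f₁‖ * ‖(T₁ ^ n) ⟨y, hyX⟩‖ + ‖c‖ := by gcongr; exact f₁.le_opNorm _
        _ ≤ ‖f₁‖ * (D * r ^ n) + ‖c‖ * r ^ n := by
            gcongr
            nlinarith [norm_nonneg c]
        _ = _ := by ring
    refine ⟨(‖f₁‖ * D + ‖c‖) / ε, by positivity, fun z hz j => ?_⟩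
    have h1 : ‖T₁ ^ j‖ ≤ (‖f₁‖ * D + ‖c‖) / ε * r ^ j := by
      rw [div_mul_eq_mul_div, le_div_iff₀ hε]
      linarith [hb1 j]
    have h2 : (T ^ j) z = (((T₁ ^ j) ⟨z, hz⟩ : X₁) : X) := (hT₁ j ⟨z, hz⟩).symm
    rw [h2]
    calc ‖(((T₁ ^ j) ⟨z, hz⟩ : X₁) : X)‖ = ‖(T₁ ^ j) ⟨z, hz⟩‖ := rfl
      _ ≤ ‖T₁ ^ j‖ * ‖(⟨z, hz⟩ : X₁)‖ := ContinuousLinearMap.le_opNorm _ _
      _ ≤ _ := by
        gcongr
        exact le_rfl
  refine ⟨X₁, hcl, hM, ?_, ?_⟩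
  · obtain ⟨M, hM0, hM⟩ := hM
    intro z hz f
    have hY : ∀ y ∈ Y₀, Tendsto (fun J : ℕ => (J : ℝ)⁻¹ *
        ∑ j ∈ Finset.range J, (r⁻¹ ^ j * ‖f ((T ^ j) y)‖) ^ 2) atTop (𝓝 0) := by
      rintro y ⟨h, hh⟩
      refine (weakMixing V hVn hno (F f) h).congr fun J => ?_
      congr 1
      apply Finset.sum_congr rfl
      intro j _
      have h1 : f ((T ^ j) y) = (f.comp (T ^ j)) y := rfl
      rw [hVj, inner_smul_right, h1, hh, norm_mul, norm_pow, norm_inv, Complex.norm_real,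
        Real.norm_of_nonneg hr0.le]
    rw [Metric.tendsto_atTop]
    intro η hη
    obtain ⟨κ, hκ0, hκ⟩ : ∃ κ : ℝ, 0 < κ ∧ 2 * (‖f‖ * M * κ) ^ 2 < η / 2 := by
      refine ⟨Real.sqrt (η / 8) / (‖f‖ * M + 1), by positivity, ?_⟩
      have h1 : ‖f‖ * M * (Real.sqrt (η / 8) / (‖f‖ * M + 1)) ≤ Real.sqrt (η / 8) := by
        rw [mul_div_assoc', div_le_iff₀ (by positivity)]
        nlinarith [Real.sqrt_nonneg (η / 8), norm_nonneg f]
      have h2 : (‖f‖ * M * (Real.sqrt (η / 8) / (‖f‖ * M + 1))) ^ 2 ≤ η / 8 := by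
        calc _ ≤ (Real.sqrt (η / 8)) ^ 2 := by gcongr
          _ = η / 8 := Real.sq_sqrt (by positivity)
      linarith
    obtain ⟨y, hyY, hyd⟩ := Metric.mem_closure_iff.1 (show z ∈ closure (Y₀ : Set X) from hz) κ hκ0
    have hyX : y ∈ X₁ := subset_closure hyY
    obtain ⟨N, hN⟩ := Metric.tendsto_atTop.1 (hY y hyY) (η / 4) (by positivity)
    refine ⟨N, fun J hJ => ?_⟩
    have h1 := hN J hJ
    rw [Real.dist_eq, sub_zero, abs_of_nonneg (by positivity)] at h1 ⊢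
    have hterm : ∀ j, (r⁻¹ ^ j * ‖f ((T ^ j) z)‖) ^ 2 ≤
        2 * (r⁻¹ ^ j * ‖f ((T ^ j) y)‖) ^ 2 + 2 * (‖f‖ * M * κ) ^ 2 := by
      intro j
      have h2 : ‖f ((T ^ j) z)‖ ≤ ‖f ((T ^ j) y)‖ + ‖f‖ * (M * r ^ j * κ) := by
        have h3 : (T ^ j) z = (T ^ j) y + (T ^ j) (z - y) := by rw [← map_add]; congr 1; abel
        rw [h3, map_add]
        calc _ ≤ ‖f ((T ^ j) y)‖ + ‖f ((T ^ j) (z - y))‖ := norm_add_le _ _
          _ ≤ ‖f ((T ^ j) y)‖ + ‖f‖ * ‖(T ^ j) (z - y)‖ := by gcongr; exact f.le_opNorm _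
          _ ≤ ‖f ((T ^ j) y)‖ + ‖f‖ * (M * r ^ j * ‖z - y‖) := by
            gcongr; exact hM _ (X₁.sub_mem hz hyX) j
          _ ≤ _ := by
            gcongr
            rw [← dist_eq_norm]; exact hyd.le
      have h4 : r⁻¹ ^ j * ‖f ((T ^ j) z)‖ ≤ r⁻¹ ^ j * ‖f ((T ^ j) y)‖ + ‖f‖ * M * κ := by
        calc _ ≤ r⁻¹ ^ j * (‖f ((T ^ j) y)‖ + ‖f‖ * (M * r ^ j * κ)) := by gcongr
          _ = r⁻¹ ^ j * ‖f ((T ^ j) y)‖ + ‖f‖ * M * κ * (r⁻¹ ^ j * r ^ j) := by ring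
          _ = _ := by
            rw [← mul_pow, inv_mul_cancel₀ hr0.ne', one_pow, mul_one]
      have h5 : (r⁻¹ ^ j * ‖f ((T ^ j) z)‖) ^ 2 ≤
          (r⁻¹ ^ j * ‖f ((T ^ j) y)‖ + ‖f‖ * M * κ) ^ 2 := by gcongr
      nlinarith [sq_nonneg (r⁻¹ ^ j * ‖f ((T ^ j) y)‖ - ‖f‖ * M * κ)]
    have hsum : ∑ j ∈ Finset.range J, (r⁻¹ ^ j * ‖f ((T ^ j) z)‖) ^ 2 ≤
        2 * ∑ j ∈ Finset.range J, (r⁻¹ ^ j * ‖f ((T ^ j) y)‖) ^ 2 +
          J * (2 * (‖f‖ * M * κ) ^ 2) := by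
      calc _ ≤ ∑ j ∈ Finset.range J, (2 * (r⁻¹ ^ j * ‖f ((T ^ j) y)‖) ^ 2 +
            2 * (‖f‖ * M * κ) ^ 2) := Finset.sum_le_sum fun j _ => hterm j
        _ = _ := by
          rw [Finset.sum_add_distrib, Finset.mul_sum, Finset.sum_const, Finset.card_range,
            nsmul_eq_mul]
    rcases Nat.eq_zero_or_pos J with h0 | h0
    · subst h0; simp; exact hη
    · have hJp : (0 : ℝ) < J := by exact_mod_cast h0
      calc _ ≤ (J : ℝ)⁻¹ * (2 * ∑ j ∈ Finset.range J, (r⁻¹ ^ j * ‖f ((T ^ j) y)‖) ^ 2 +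
          J * (2 * (‖f‖ * M * κ) ^ 2)) := by gcongr
        _ = 2 * ((J : ℝ)⁻¹ * ∑ j ∈ Finset.range J, (r⁻¹ ^ j * ‖f ((T ^ j) y)‖) ^ 2) +
          2 * (‖f‖ * M * κ) ^ 2 := by field_simp
        _ < η := by linarith
  · intro g hg
    obtain ⟨y, hyy⟩ := hy (F g)
    have h1 : y ∈ X₁ := subset_closure ⟨F g, hyy⟩
    have h2 := hg y h1
    rw [hyy] at h2
    exact inner_self_eq_zero.1 h2

theorem hil [CompleteSpace X] [CompleteSpace H]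
    (hrefl : Function.Surjective (NormedSpace.inclusionInDoubleDual ℂ X))
    (T : X →L[ℂ] X) (hev : ∀ (x : X) (ν : ℂ), T x = ν • x → x = 0)
    (hnum : ∀ (x : X) (f : StrongDual ℂ X), ¬ Dense (range fun n : ℕ => f ((T ^ n) x)))
    {r : ℝ} (hr : 1 ≤ r) (F : StrongDual ℂ X →L[ℂ] H)
    (hF : ∀ f : StrongDual ℂ X, ‖F (f.comp T)‖ = r * ‖F f‖) :
    ∃ X₁ : Submodule ℂ X, IsClosed (X₁ : Set X) ∧
      (∃ M : ℝ, 0 ≤ M ∧ ∀ z ∈ X₁, ∀ j : ℕ, ‖(T ^ j) z‖ ≤ M * r ^ j * ‖z‖) ∧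
      (∀ z ∈ X₁, ∀ f : StrongDual ℂ X, Tendsto (fun J : ℕ => (J : ℝ)⁻¹ *
        ∑ j ∈ Finset.range J, (r⁻¹ ^ j * ‖f ((T ^ j) z)‖) ^ 2) atTop (𝓝 0)) ∧
      (∀ g : StrongDual ℂ X, (∀ z ∈ X₁, g z = 0) → F g = 0) := by
  set K : Submodule ℂ H := (LinearMap.range (F : StrongDual ℂ X →ₗ[ℂ] H)).topologicalClosure
    with hK
  have hcl : IsClosed (K : Set H) := Submodule.isClosed_topologicalClosure _
  have : CompleteSpace K := hcl.completeSpace_coe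
  have hmem : ∀ f, F f ∈ K := fun f => subset_closure (LinearMap.mem_range.2 ⟨f, rfl⟩)
  set F' : StrongDual ℂ X →L[ℂ] K := F.codRestrict K hmem with hF'
  have hd : DenseRange F' := by
    intro u
    rw [Metric.mem_closure_iff]
    intro ε hε
    obtain ⟨v, hv, hvd⟩ := Metric.mem_closure_iff.1 (show (u : H) ∈ closure _ from u.2) ε hε
    obtain ⟨f, rfl⟩ := LinearMap.mem_range.1 hv
    exact ⟨F' f, ⟨f, rfl⟩, hvd⟩
  obtain ⟨X₁, h1, h2, h3, h4⟩ := hil_dense hrefl T hev hnum hr F' hd (fun f => hF f)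
  refine ⟨X₁, h1, h2, h3, fun g hg => ?_⟩
  have := h4 g hg
  exact congrArg Subtype.val this

end Pool.Agent.V11111.NH
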