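import Mathlib

/-!
A limit measure along an ultrafilter.
-/

set_option autoImplicit false
open Set Topology Filter MeasureTheory CompactlySupported

namespace Pool.Agent.V11111.NH

theorem exists_ulim_real (U : Ultrafilter ℕ) (a : ℕ → ℝ) (C : ℝ) (h : ∀ n, ‖a n‖ ≤ C) :
    ∃ L : ℝ, Tendsto a U (𝓝 L) := by
  obtain ⟨L, _, hL⟩ := (isCompact_closedBall (0 : ℝ) C).ultrafilter_le_nhds (U.map a) (by
    rw [le_principal_iff]
    show ∀ᶠ n in (U : Filter ℕ), a n ∈ Metric.closedBall (0 : ℝ) C
    refine Filter.Eventually.of_forall fun n => ?_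
    simpa using h n)
  exact ⟨L, hL⟩

theorem exists_measure {K : Type*} [TopologicalSpace K] [CompactSpace K] [T2Space K]
    [MeasurableSpace K] [BorelSpace K] (U : Ultrafilter ℕ) (z : ℕ → K) (p : ℕ → ℕ → ℝ)
    (hp : ∀ k n, 0 ≤ p k n) (hs : ∀ k, Summable (p k)) (h1 : ∀ k, ∑' n, p k n = 1) :
    ∃ m : Measure K, IsProbabilityMeasure m ∧
      ∀ G : C(K, ℝ), Tendsto (fun k => ∑' n, p k n * G (z n)) U (𝓝 (∫ φ, G φ ∂m)) := by
  have hsum : ∀ (k : ℕ) (G : C(K, ℝ)), Summable fun n => p k n * G (z n) := by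
    intro k G
    refine Summable.of_norm_bounded (g := fun n => p k n * ‖G‖) ((hs k).mul_right _) fun n => ?_
    rw [norm_mul, Real.norm_of_nonneg (hp k n)]
    exact mul_le_mul_of_nonneg_left (G.norm_coe_le_norm _) (hp k n)
  have hbd : ∀ (k : ℕ) (G : C(K, ℝ)), ‖∑' n, p k n * G (z n)‖ ≤ ‖G‖ := by
    intro k G
    have h2 := (hsum k G).norm
    have h3 : ∀ n, ‖p k n * G (z n)‖ ≤ p k n * ‖G‖ := fun n => by
      rw [norm_mul, Real.norm_of_nonneg (hp k n)]
      exact mul_le_mul_of_nonneg_left (G.norm_coe_le_norm _) (hp k n)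
    calc ‖∑' n, p k n * G (z n)‖ ≤ ∑' n, ‖p k n * G (z n)‖ := norm_tsum_le_tsum_norm h2
      _ ≤ ∑' n, p k n * ‖G‖ := h2.tsum_le_tsum h3 ((hs k).mul_right _)
      _ = ‖G‖ := by rw [tsum_mul_right, h1, one_mul]
  have hex := fun G : C(K, ℝ) => exists_ulim_real U (fun k => ∑' n, p k n * G (z n)) ‖G‖
    (fun k => hbd k G)
  choose L hL using hex
  let Λ : C_c(K, ℝ) →ₚ[ℝ] ℝ :=
    { toFun := fun G => L (G : C(K, ℝ))
      map_add' := fun G G' => tendsto_nhds_unique (hL _) (by
        refine ((hL (G : C(K, ℝ))).add (hL (G' : C(K, ℝ)))).congr fun k => ?_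
        rw [← (hsum k _).tsum_add (hsum k _)]
        apply tsum_congr
        intro n
        simp [mul_add])
      map_smul' := fun c G => tendsto_nhds_unique (hL _) (by
        refine ((hL (G : C(K, ℝ))).const_mul c).congr fun k => ?_
        rw [← tsum_mul_left]
        apply tsum_congr
        intro n
        simp
        ring)
      monotone' := fun G G' h => le_of_tendsto_of_tendsto (hL _) (hL _)
        (Eventually.of_forall fun k => (hsum k _).tsum_le_tsum (fun n =>
          mul_le_mul_of_nonneg_left (h (z n)) (hp k n)) (hsum k _)) }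
  set ν := RealRMK.rieszMeasure Λ with hν
  have key : ∀ G : C(K, ℝ), ∫ φ, G φ ∂ν = L G := by
    intro G
    let f : C_c(K, ℝ) := CompactlySupportedContinuousMap.continuousMapEquiv G
    have h2 := RealRMK.integral_rieszMeasure Λ f
    exact h2
  have hfin : IsFiniteMeasure ν := by
    have : IsFiniteMeasureOnCompacts ν := inferInstance
    exact CompactSpace.isFiniteMeasure
  refine ⟨ν, ?_, fun G => ?_⟩
  · constructor
    have h2 := key (ContinuousMap.const K 1)
    have h3 : L (ContinuousMap.const K 1) = 1 := by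
      refine tendsto_nhds_unique (hL _) ?_
      refine tendsto_const_nhds.congr fun k => ?_
      simp [h1]
    rw [h3] at h2
    simp only [ContinuousMap.const_apply, integral_const, smul_eq_mul, mul_one] at h2
    have h4 : (ν Set.univ).toReal = 1 := h2
    have := ENNReal.ofReal_toReal (measure_ne_top ν Set.univ)
    rw [← this, h4]; simp
  · rw [key G]; exact hL G

end Pool.Agent.V11111.NH
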