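import Pool.Agent.V11111.NH.Hil
import Pool.Agent.V11111.NH.Meas

/-!
The measure on a weakly compact set, and the final averaging argument.
-/

set_option autoImplicit false
open Set Topology Filter MeasureTheory ComplexConjugate

namespace Pool.Agent.V11111.NH

variable {X : Type*} [NormedAddCommGroup X] [NormedSpace ℂ X]

/-- The bidual vectors of norm at most `‖x₀‖` in the bipolar of the orbit of `x₀`. -/
def Kset (T : X →L[ℂ] X) (x₀ : X) : Set (WeakDual ℂ (StrongDual ℂ X)) :=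
  {φ | ‖WeakDual.toStrongDual φ‖ ≤ ‖x₀‖ ∧
    ∀ g : StrongDual ℂ X, (∀ n : ℕ, g ((T ^ n) x₀) = 0) → φ g = 0}

theorem isCompact_Kset (T : X →L[ℂ] X) (x₀ : X) : IsCompact (Kset T x₀) := by
  have h1 := WeakDual.isCompact_closedBall (𝕜 := ℂ) (E := StrongDual ℂ X) 0 ‖x₀‖
  have h2 : IsClosed {φ : WeakDual ℂ (StrongDual ℂ X) |
      ∀ g : StrongDual ℂ X, (∀ n : ℕ, g ((T ^ n) x₀) = 0) → φ g = 0} := by
    have h3 : {φ : WeakDual ℂ (StrongDual ℂ X) |
      ∀ g : StrongDual ℂ X, (∀ n : ℕ, g ((T ^ n) x₀) = 0) → φ g = 0} =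
      ⋂ g : StrongDual ℂ X, ⋂ _ : (∀ n : ℕ, g ((T ^ n) x₀) = 0), {φ | φ g = 0} := by
      ext φ; simp
    rw [h3]
    exact isClosed_iInter fun g => isClosed_iInter fun _ =>
      isClosed_eq (WeakDual.eval_continuous g) continuous_const
  have h4 := h1.inter_right h2
  convert h4 using 1
  ext φ
  simp [Kset]

instance (T : X →L[ℂ] X) (x₀ : X) : CompactSpace (Kset T x₀) :=
  isCompact_iff_compactSpace.1 (isCompact_Kset T x₀)

/-- Evaluation at a functional. -/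
noncomputable def evC (T : X →L[ℂ] X) (x₀ : X) (f : StrongDual ℂ X) : C(Kset T x₀, ℂ) :=
  ⟨fun φ => φ.1 f, (WeakDual.eval_continuous f).comp continuous_subtype_val⟩

theorem norm_ev_le (T : X →L[ℂ] X) (x₀ : X) (f : StrongDual ℂ X) (φ : Kset T x₀) :
    ‖φ.1 f‖ ≤ ‖x₀‖ * ‖f‖ := by
  have h1 := (WeakDual.toStrongDual φ.1).le_opNorm f
  exact h1.trans (mul_le_mul_of_nonneg_right φ.2.1 (norm_nonneg _))

/-- The evaluation map. -/
noncomputable def evL (T : X →L[ℂ] X) (x₀ : X) : StrongDual ℂ X →L[ℂ] C(Kset T x₀, ℂ) :=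
  LinearMap.mkContinuous
    { toFun := evC T x₀
      map_add' := fun f g => by ext φ; exact map_add φ.1 f g
      map_smul' := fun c f => by ext φ; exact map_smul φ.1 c f } ‖x₀‖ (fun f => by
        rw [ContinuousMap.norm_le _ (by positivity)]
        intro φ
        exact norm_ev_le T x₀ f φ)

theorem int_norm (T : X →L[ℂ] X) (x₀ : X)
    [MeasurableSpace (Kset T x₀)] [BorelSpace (Kset T x₀)]
    (m : Measure (Kset T x₀)) [IsProbabilityMeasure m] (f : StrongDual ℂ X) :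
    ‖(ContinuousMap.toLp 2 m ℂ) (evL T x₀ f)‖ ^ 2 = ∫ φ, ‖φ.1 f‖ ^ 2 ∂m := by
  have h1 := ContinuousMap.inner_toLp (𝕜 := ℂ) (μ := m) (evL T x₀ f) (evL T x₀ f)
  rw [inner_self_eq_norm_sq_to_K] at h1
  have h2 : ∀ φ : Kset T x₀, (evL T x₀ f) φ * conj ((evL T x₀ f) φ) = ((‖φ.1 f‖ ^ 2 : ℝ) : ℂ) := by
    intro φ
    have : (evL T x₀ f) φ = φ.1 f := rfl
    rw [this, Complex.mul_conj, Complex.normSq_eq_norm_sq]
  simp only [h2] at h1
  have h3 : ∫ φ : Kset T x₀, ((‖φ.1 f‖ ^ 2 : ℝ) : ℂ) ∂m = ((∫ φ, ‖φ.1 f‖ ^ 2 ∂m : ℝ) : ℂ) :=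
    integral_ofReal (𝕜 := ℂ)
  have h5 : ((‖(ContinuousMap.toLp 2 m ℂ) (evL T x₀ f)‖ ^ 2 : ℝ) : ℂ) =
      ((∫ φ, ‖φ.1 f‖ ^ 2 ∂m : ℝ) : ℂ) := by
    rw [← h3, ← h1]
    push_cast
    rfl
  exact Complex.ofReal_injective h5

theorem cont_ev (T : X →L[ℂ] X) (x₀ : X) (f : StrongDual ℂ X) :
    Continuous fun φ : Kset T x₀ => ‖φ.1 f‖ ^ 2 :=
  ((evC T x₀ f).continuous.norm).pow 2

theorem integrable_ev (T : X →L[ℂ] X) (x₀ : X)
    [MeasurableSpace (Kset T x₀)] [BorelSpace (Kset T x₀)]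
    (m : Measure (Kset T x₀)) [IsProbabilityMeasure m] (f : StrongDual ℂ X) :
    Integrable (fun φ : Kset T x₀ => ‖φ.1 f‖ ^ 2) m :=
  (cont_ev T x₀ f).integrable_of_hasCompactSupport (HasCompactSupport.of_compactSpace _)

theorem int_zero [CompleteSpace X]
    (hrefl : Function.Surjective (NormedSpace.inclusionInDoubleDual ℂ X))
    (T : X →L[ℂ] X) (hev : ∀ (x : X) (ν : ℂ), T x = ν • x → x = 0)
    (hnum : ∀ (x : X) (f : StrongDual ℂ X), ¬ Dense (range fun n : ℕ => f ((T ^ n) x)))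
    {r : ℝ} (hr : 1 ≤ r) (x₀ : X)
    [MeasurableSpace (Kset T x₀)] [BorelSpace (Kset T x₀)]
    (m : Measure (Kset T x₀)) [IsProbabilityMeasure m]
    (hN : ∀ f : StrongDual ℂ X, ∫ φ : Kset T x₀, ‖φ.1 (f.comp T)‖ ^ 2 ∂m =
      r ^ 2 * ∫ φ : Kset T x₀, ‖φ.1 f‖ ^ 2 ∂m) (f : StrongDual ℂ X) :
    ∫ φ : Kset T x₀, ‖φ.1 f‖ ^ 2 ∂m = 0 := by
  have hr0 : 0 < r := lt_of_lt_of_le one_pos hr
  set F : StrongDual ℂ X →L[ℂ] Lp ℂ 2 m := (ContinuousMap.toLp 2 m ℂ).comp (evL T x₀) with hF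
  have hFn : ∀ g, ‖F g‖ ^ 2 = ∫ φ : Kset T x₀, ‖φ.1 g‖ ^ 2 ∂m := fun g => int_norm T x₀ m g
  have hFT : ∀ g : StrongDual ℂ X, ‖F (g.comp T)‖ = r * ‖F g‖ := by
    intro g
    have h1 : ‖F (g.comp T)‖ ^ 2 = (r * ‖F g‖) ^ 2 := by rw [hFn, hN, mul_pow, hFn]
    exact (pow_left_inj₀ (norm_nonneg _) (by positivity) two_ne_zero).1 h1
  obtain ⟨X₁, hcl, ⟨M, hM0, hM⟩, hces, hann⟩ := hil hrefl T hev hnum hr F hFT
  -- the separable subspace
  set X₀ : Submodule ℂ X := (Submodule.span ℂ (range fun n : ℕ => (T ^ n) x₀)).topologicalClosure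
    with hX₀
  have hX₀sep : TopologicalSpace.IsSeparable (X₀ : Set X) :=
    ((countable_range _).isSeparable.span (R := ℂ)).closure
  have hsc : SecondCountableTopology X₀ := hX₀sep.secondCountableTopology
  have hrep : ∀ φ : Kset T x₀, ∃ z : X, z ∈ X₀ ∧ ‖z‖ ≤ ‖x₀‖ ∧ ∀ g : StrongDual ℂ X, φ.1 g = g z := by
    intro φ
    obtain ⟨z, hz⟩ := hrefl (WeakDual.toStrongDual φ.1)
    have hz' : ∀ g : StrongDual ℂ X, φ.1 g = g z := by
      intro g
      rw [← NormedSpace.dual_def ℂ X z g, hz]; rfl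
    refine ⟨z, ?_, ?_, hz'⟩
    · by_contra hzn
      have hc0 : IsClosed (X₀ : Set X) := Submodule.isClosed_topologicalClosure _
      have hne : (Submodule.Quotient.mk z : X ⧸ X₀) ≠ 0 := by
        intro h0
        exact hzn ((Submodule.Quotient.mk_eq_zero X₀).1 h0)
      obtain ⟨g, hg⟩ := SeparatingDual.exists_ne_zero (R := ℂ) hne
      apply hg
      have h1 : φ.1 (g.comp X₀.mkQL) = 0 := by
        apply φ.2.2
        intro n
        have h2 : X₀.mkQL ((T ^ n) x₀) = 0 := by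
          have : (T ^ n) x₀ ∈ X₀ := subset_closure (Submodule.subset_span ⟨n, rfl⟩)
          exact (Submodule.Quotient.mk_eq_zero X₀).2 this
        show g (X₀.mkQL ((T ^ n) x₀)) = 0
        rw [h2, map_zero]
      rw [hz'] at h1
      exact h1
    · rw [← (NormedSpace.inclusionInDoubleDualLi (E := X) ℂ).norm_map z]
      have : NormedSpace.inclusionInDoubleDualLi (E := X) ℂ z = WeakDual.toStrongDual φ.1 := hz
      rw [this]
      exact φ.2.1
  have hae : ∀ᵐ φ ∂m, ∃ z : X, z ∈ X₁ ∧ ‖z‖ ≤ ‖x₀‖ ∧ ∀ g : StrongDual ℂ X, φ.1 g = g z := by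
    let s : {g : StrongDual ℂ X // ∀ z ∈ X₁, g z = 0} → Set X₀ := fun g => {z | g.1 (z : X) ≠ 0}
    have hso : ∀ g, IsOpen (s g) := fun g => by
      have : Continuous fun z : X₀ => g.1 (z : X) := by fun_prop
      exact isOpen_ne_fun this continuous_const
    obtain ⟨S, hSc, hSu⟩ := TopologicalSpace.isOpen_iUnion_countable s hso
    have h1 : ∀ᵐ φ ∂m, ∀ g (_ : g ∈ S), φ.1 g.1 = 0 := by
      rw [ae_ball_iff hSc]
      intro g _
      have h2 := hann g.1 g.2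
      have h3 : ∫ φ : Kset T x₀, ‖φ.1 g.1‖ ^ 2 ∂m = 0 := by rw [← hFn, h2]; simp
      rw [integral_eq_zero_iff_of_nonneg (fun φ => by positivity) (integrable_ev T x₀ m g.1)] at h3
      filter_upwards [h3] with φ hφ
      have h4 : ‖φ.1 g.1‖ ^ 2 = 0 := hφ
      exact norm_eq_zero.1 (pow_eq_zero_iff (two_ne_zero) |>.1 h4)
    filter_upwards [h1] with φ hφ
    obtain ⟨z, hz0, hzn, hzg⟩ := hrep φ
    refine ⟨z, ?_, hzn, hzg⟩
    by_contra hz1
    have hne : (Submodule.Quotient.mk z : X ⧸ X₁) ≠ 0 := by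
      intro h0
      exact hz1 ((Submodule.Quotient.mk_eq_zero X₁).1 h0)
    obtain ⟨g, hg⟩ := SeparatingDual.exists_ne_zero (R := ℂ) hne
    let g' : {g : StrongDual ℂ X // ∀ z ∈ X₁, g z = 0} := ⟨g.comp X₁.mkQL, fun w hw => by
      show g (X₁.mkQL w) = 0
      have : X₁.mkQL w = 0 := (Submodule.Quotient.mk_eq_zero X₁).2 hw
      rw [this, map_zero]⟩
    have hmem : (⟨z, hz0⟩ : X₀) ∈ ⋃ i, s i := mem_iUnion.2 ⟨g', hg⟩
    rw [← hSu] at hmem
    obtain ⟨i, hi, hzi⟩ := mem_iUnion₂.1 hmem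
    apply hzi
    show i.1 z = 0
    rw [← hzg]
    exact hφ i hi
  -- the averages
  have hlim : Tendsto (fun J : ℕ => ∫ φ : Kset T x₀, ((J : ℝ)⁻¹ *
      ∑ j ∈ Finset.range J, (r⁻¹ ^ j) ^ 2 * ‖φ.1 (f.comp (T ^ j))‖ ^ 2) ∂m) atTop
      (𝓝 (∫ _ : Kset T x₀, (0 : ℝ) ∂m)) := by
    apply tendsto_integral_of_dominated_convergence (fun _ => (‖f‖ * M * ‖x₀‖) ^ 2)
    · intro J
      apply Continuous.aestronglyMeasurable
      apply Continuous.const_mul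
      apply continuous_finsetSum
      intro j _
      exact (cont_ev T x₀ _).const_mul _
    · exact integrable_const _
    · intro J
      filter_upwards [hae] with φ hφ
      obtain ⟨z, hz1, hzn, hzg⟩ := hφ
      rw [Real.norm_of_nonneg (by positivity)]
      rcases Nat.eq_zero_or_pos J with h0 | h0
      · subst h0; simp; positivity
      · have hJ : (0 : ℝ) < J := by exact_mod_cast h0
        rw [inv_mul_le_iff₀ hJ]
        calc _ ≤ ∑ j ∈ Finset.range J, (‖f‖ * M * ‖x₀‖) ^ 2 := by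
              apply Finset.sum_le_sum
              intro j _
              rw [hzg, ← mul_pow]
              have h1 : ‖(f.comp (T ^ j)) z‖ ≤ ‖f‖ * (M * r ^ j * ‖x₀‖) := by
                calc ‖f ((T ^ j) z)‖ ≤ ‖f‖ * ‖(T ^ j) z‖ := f.le_opNorm _
                  _ ≤ ‖f‖ * (M * r ^ j * ‖z‖) := by gcongr; exact hM z hz1 j
                  _ ≤ _ := by gcongr
              have h2 : r⁻¹ ^ j * ‖(f.comp (T ^ j)) z‖ ≤ ‖f‖ * M * ‖x₀‖ := by
                calc _ ≤ r⁻¹ ^ j * (‖f‖ * (M * r ^ j * ‖x₀‖)) := by gcongr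
                  _ = ‖f‖ * M * ‖x₀‖ * (r⁻¹ ^ j * r ^ j) := by ring
                  _ = _ := by rw [← mul_pow, inv_mul_cancel₀ hr0.ne', one_pow, mul_one]
              gcongr
          _ = _ := by rw [Finset.sum_const, Finset.card_range, nsmul_eq_mul]
    · filter_upwards [hae] with φ hφ
      obtain ⟨z, hz1, hzn, hzg⟩ := hφ
      refine (hces z hz1 f).congr fun J => ?_
      congr 1
      apply Finset.sum_congr rfl
      intro j _
      rw [hzg, mul_pow]; rfl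
  rw [integral_zero] at hlim
  have hconst : ∀ᶠ J : ℕ in atTop, ∫ φ : Kset T x₀, ((J : ℝ)⁻¹ *
      ∑ j ∈ Finset.range J, (r⁻¹ ^ j) ^ 2 * ‖φ.1 (f.comp (T ^ j))‖ ^ 2) ∂m =
      ∫ φ : Kset T x₀, ‖φ.1 f‖ ^ 2 ∂m := by
    filter_upwards [eventually_gt_atTop 0] with J hJ
    have hJ' : (0 : ℝ) < J := by exact_mod_cast hJ
    rw [integral_const_mul, integral_finsetSum _ (fun j _ => (integrable_ev T x₀ m _).const_mul _)]
    have h1 : ∀ j ∈ Finset.range J, ∫ φ : Kset T x₀, (r⁻¹ ^ j) ^ 2 *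
        ‖φ.1 (f.comp (T ^ j))‖ ^ 2 ∂m = ∫ φ : Kset T x₀, ‖φ.1 f‖ ^ 2 ∂m := by
      intro j _
      rw [integral_const_mul, ← hFn, ← hFn, norm_comp_pow T F hFT]
      have h3 : r⁻¹ ^ j * r ^ j = 1 := by rw [← mul_pow, inv_mul_cancel₀ hr0.ne', one_pow]
      calc (r⁻¹ ^ j) ^ 2 * (r ^ j * ‖F f‖) ^ 2 = (r⁻¹ ^ j * r ^ j) ^ 2 * ‖F f‖ ^ 2 := by ring
        _ = _ := by rw [h3, one_pow, one_mul]
    rw [Finset.sum_congr rfl h1, Finset.sum_const, Finset.card_range, nsmul_eq_mul]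
    field_simp
  have h2 := tendsto_nhds_unique (hlim.congr' hconst) tendsto_const_nhds
  exact h2.symm

end Pool.Agent.V11111.NH
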