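import Mathlib

/-!
The choice of the weights.
-/

set_option autoImplicit false
open Set Topology Filter
open scoped ENNReal NNReal

namespace Pool.Agent.V11111.NH

variable {E : Type*} [NormedAddCommGroup E] [NormedSpace ℂ E] [CompleteSpace E]

/-- The growth rate. -/
theorem exists_rate (T : E →L[ℂ] E) (hT : ¬ ∃ C : ℝ, ∀ n : ℕ, ‖T ^ n‖ ≤ C) :
    ∃ r : ℝ, 1 ≤ r ∧ (∀ n : ℕ, r ^ n ≤ ‖T ^ n‖) ∧
      ∀ ρ : ℝ, r < ρ → ∀ᶠ n : ℕ in atTop, ‖T ^ n‖ ≤ ρ ^ n := by
  have hfin : spectralRadius ℂ T ≠ ⊤ := by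
    have h1 : spectralRadius ℂ T ≤ _ := spectrum.spectralRadius_le_pow_nnnorm_pow_one_div ℂ T 0
    exact ne_top_of_le_ne_top (by simp; exact ENNReal.mul_ne_top ENNReal.coe_ne_top (by simp)) h1
  set r : ℝ := (spectralRadius ℂ T).toReal with hr
  have hr0 : 0 ≤ r := ENNReal.toReal_nonneg
  have hsr : spectralRadius ℂ T = ENNReal.ofReal r := (ENNReal.ofReal_toReal hfin).symm
  have h1 : ∀ n : ℕ, r ^ n ≤ ‖T ^ n‖ := by
    intro n
    rcases Nat.eq_zero_or_pos n with h0 | h0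
    · subst h0
      rw [pow_zero, pow_zero]
      have : Nontrivial E := by
        by_contra hn
        rw [not_nontrivial_iff_subsingleton] at hn
        apply hT
        refine ⟨0, fun n => ?_⟩
        have : T ^ n = 0 := by ext x; exact Subsingleton.elim _ _
        rw [this, norm_zero]
      exact (norm_one (α := E →L[ℂ] E)).ge
    · obtain ⟨k, rfl⟩ := Nat.exists_eq_succ_of_ne_zero h0.ne'
      have h2 : spectralRadius ℂ T ≤ ‖T ^ (k + 1)‖₊ ^ (1 / (k + 1) : ℝ) *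
        ‖(1 : E →L[ℂ] E)‖₊ ^ (1 / (k + 1) : ℝ) :=
        spectrum.spectralRadius_le_pow_nnnorm_pow_one_div ℂ T k
      have : Nontrivial E := by
        by_contra hn
        rw [not_nontrivial_iff_subsingleton] at hn
        apply hT
        refine ⟨0, fun n => ?_⟩
        have : T ^ n = 0 := by ext x; exact Subsingleton.elim _ _
        rw [this, norm_zero]
      have h3 : ‖(1 : E →L[ℂ] E)‖₊ = 1 := nnnorm_one
      rw [h3, hsr] at h2
      simp only [ENNReal.coe_one, ENNReal.one_rpow, mul_one] at h2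
      have h4 : ENNReal.ofReal r ^ (k + 1) ≤ ((‖T ^ (k + 1)‖₊ : ℝ≥0∞)) := by
        calc ENNReal.ofReal r ^ (k + 1) ≤ ((‖T ^ (k + 1)‖₊ : ℝ≥0∞) ^ (1 / (k + 1) : ℝ)) ^ (k + 1) := by
              gcongr
          _ = (‖T ^ (k + 1)‖₊ : ℝ≥0∞) := by
              rw [← ENNReal.rpow_natCast, ← ENNReal.rpow_mul]
              have : (1 / ((k : ℝ) + 1)) * ((k + 1 : ℕ) : ℝ) = 1 := by push_cast; field_simp
              rw [this, ENNReal.rpow_one]
      rw [← ENNReal.ofReal_pow hr0, ← enorm_eq_nnnorm, ← ofReal_norm] at h4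
      exact (ENNReal.ofReal_le_ofReal_iff (norm_nonneg _)).1 h4
  have h2 : ∀ ρ : ℝ, r < ρ → ∀ᶠ n : ℕ in atTop, ‖T ^ n‖ ≤ ρ ^ n := by
    intro ρ hρ
    have h3 := spectrum.pow_norm_pow_one_div_tendsto_nhds_spectralRadius T
    rw [hsr] at h3
    have h4 : ENNReal.ofReal r < ENNReal.ofReal ρ :=
      (ENNReal.ofReal_lt_ofReal_iff (lt_of_le_of_lt hr0 hρ)).2 hρ
    filter_upwards [h3.eventually (gt_mem_nhds h4), eventually_gt_atTop 0] with n hn hn0
    have hρ0 : 0 < ρ := lt_of_le_of_lt hr0 hρ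
    have h5 : ‖T ^ n‖ ^ (1 / (n : ℝ)) < ρ := (ENNReal.ofReal_lt_ofReal_iff hρ0).1 hn
    have hn' : (0 : ℝ) < n := by exact_mod_cast hn0
    calc ‖T ^ n‖ = (‖T ^ n‖ ^ (1 / (n : ℝ))) ^ n := by
          rw [← Real.rpow_natCast, ← Real.rpow_mul (norm_nonneg _), one_div,
            inv_mul_cancel₀ hn'.ne', Real.rpow_one]
      _ ≤ ρ ^ n := by gcongr
  refine ⟨r, ?_, h1, h2⟩
  by_contra hlt
  rw [not_le] at hlt
  apply hT
  obtain ⟨N, hN⟩ := eventually_atTop.1 (h2 1 hlt)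
  obtain ⟨C, hC⟩ := (((Finset.range N).image fun n => ‖T ^ n‖).bddAbove)
  refine ⟨max C 1, fun n => ?_⟩
  rcases lt_or_ge n N with h | h
  · refine le_max_of_le_left (hC ?_)
    simp only [Finset.coe_image, mem_image, Finset.coe_range, mem_Iio]
    exact ⟨n, h, rfl⟩
  · refine le_max_of_le_right ?_
    have := hN n h
    rwa [one_pow] at this

theorem summable_weights {T : E →L[ℂ] E} {r : ℝ} (hr : 1 ≤ r)
    (h : ∀ ρ : ℝ, r < ρ → ∀ᶠ n : ℕ in atTop, ‖T ^ n‖ ≤ ρ ^ n) {s : ℝ} (hs0 : 0 < s)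
    (hs1 : s < 1) : Summable fun n : ℕ => s ^ n * (‖T ^ n‖ / r ^ n) ^ 2 := by
  have hr0 : 0 < r := lt_of_lt_of_le one_pos hr
  obtain ⟨t, ht1, ht2⟩ : ∃ t : ℝ, 1 < t ∧ s * t ^ 2 < 1 := by
    refine ⟨Real.sqrt ((1 + 1 / s) / 2), ?_, ?_⟩
    · rw [Real.lt_sqrt (by norm_num)]
      have : 1 < 1 / s := by rw [lt_div_iff₀ hs0]; linarith
      linarith
    · rw [Real.sq_sqrt (by positivity)]
      have h3 : s * ((1 + 1 / s) / 2) = (s + 1) / 2 := by field_simp
      rw [h3]; linarith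
  have h1 := h (r * t) (by nlinarith)
  refine Summable.of_norm_bounded_eventually_nat (g := fun n => (s * t ^ 2) ^ n)
    (summable_geometric_of_lt_one (by positivity) ht2) ?_
  filter_upwards [h1] with n hn
  rw [Real.norm_of_nonneg (by positivity)]
  have h2 : ‖T ^ n‖ / r ^ n ≤ t ^ n := by
    rw [div_le_iff₀ (by positivity)]
    calc ‖T ^ n‖ ≤ (r * t) ^ n := hn
      _ = t ^ n * r ^ n := by rw [mul_pow]; ring
  calc s ^ n * (‖T ^ n‖ / r ^ n) ^ 2 ≤ s ^ n * (t ^ n) ^ 2 := by gcongr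
    _ = (s * t ^ 2) ^ n := by rw [mul_pow]; ring

/-- The key estimate. -/
theorem exists_s {T : E →L[ℂ] E} (hT : ¬ ∃ C : ℝ, ∀ n : ℕ, ‖T ^ n‖ ≤ C) {r : ℝ} (hr : 1 ≤ r)
    (h1 : ∀ n : ℕ, r ^ n ≤ ‖T ^ n‖)
    (h2 : ∀ ρ : ℝ, r < ρ → ∀ᶠ n : ℕ in atTop, ‖T ^ n‖ ≤ ρ ^ n) {s₀ η : ℝ} (hs₀ : 0 < s₀)
    (hs₀' : s₀ < 1) (hη : 0 < η) :
    ∃ s : ℝ, s₀ < s ∧ s < 1 ∧ ∑' n : ℕ, s ^ n * (1 / r ^ n) ^ 2 ≤
      η * ∑' n : ℕ, s ^ n * (‖T ^ n‖ / r ^ n) ^ 2 := by
  have hr0 : 0 < r := lt_of_lt_of_le one_pos hr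
  have hA : ∀ s : ℝ, 0 < s → s < 1 → 1 / (1 - s) ≤ ∑' n : ℕ, s ^ n * (‖T ^ n‖ / r ^ n) ^ 2 := by
    intro s hs hs1
    rw [one_div, ← tsum_geometric_of_lt_one hs.le hs1]
    apply (summable_geometric_of_lt_one hs.le hs1).tsum_le_tsum _ (summable_weights hr h2 hs hs1)
    intro n
    have : 1 ≤ ‖T ^ n‖ / r ^ n := by rw [one_le_div (by positivity)]; exact h1 n
    have h3 : 1 ≤ (‖T ^ n‖ / r ^ n) ^ 2 := one_le_pow₀ this
    have h4 : 0 ≤ s ^ n := by positivity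
    nlinarith
  rcases hr.eq_or_lt with h | h
  · -- r = 1
    subst h
    by_contra hall
    push Not at hall
    apply hT
    obtain ⟨N₀, hN₀⟩ := exists_nat_gt (1 / (1 - s₀))
    have hN₀1 : 1 < N₀ := by
      have : 1 ≤ 1 / (1 - s₀) := by rw [le_div_iff₀ (by linarith)]; linarith
      have h3 : (1 : ℝ) < N₀ := lt_of_le_of_lt this hN₀
      exact_mod_cast h3
    have hbound : ∀ N : ℕ, N₀ ≤ N → ‖T ^ N‖ ≤ 8 / η := by
      intro N hN
      have hN2 : 2 ≤ N := by omega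
      have hNr : (2 : ℝ) ≤ N := by exact_mod_cast hN2
      have hNpos : (0 : ℝ) < N := by linarith
      set s : ℝ := 1 - 1 / N with hs
      have hs0 : s₀ < s := by
        rw [hs]
        have h3 : 1 / (1 - s₀) < N := lt_of_lt_of_le hN₀ (by exact_mod_cast hN)
        have h4 : 0 < 1 - s₀ := by linarith
        rw [div_lt_iff₀ h4] at h3
        have h5 : 1 / (N : ℝ) < 1 - s₀ := by rw [div_lt_iff₀ hNpos]; linarith
        linarith
      have hs1 : s < 1 := by rw [hs]; have : 0 < 1 / (N:ℝ) := by positivity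
                             linarith
      have hspos : 0 < s := lt_trans hs₀ hs0
      have h3 := hall s hs0 hs1
      simp only [one_pow, div_one, mul_one] at h3
      rw [tsum_geometric_of_lt_one hspos.le hs1] at h3
      have h4 : (1 - s)⁻¹ = N := by rw [hs]; simp
      rw [h4] at h3
      have hsum := summable_weights (T := T) le_rfl h2 hspos hs1
      simp only [one_pow, div_one] at hsum
      have h5 : ∑ n ∈ Finset.range (N + 1), s ^ n * ‖T ^ n‖ ^ 2 ≤ ∑' n : ℕ, s ^ n * ‖T ^ n‖ ^ 2 :=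
        hsum.sum_le_tsum _ fun n _ => by positivity
      have h6 : (1 : ℝ) / 8 ≤ s ^ N := by
        have h8 : (1 : ℝ) + (N / 2 : ℕ) * (-(1 / N)) ≤ (1 + -(1 / (N:ℝ))) ^ (N / 2) :=
          one_add_mul_le_pow (by
            have : 1 / (N:ℝ) ≤ 1 := by rw [div_le_one hNpos]; linarith
            linarith) _
        have h9 : ((N / 2 : ℕ) : ℝ) ≤ N / 2 := Nat.cast_div_le
        have h10 : ((N / 2 : ℕ) : ℝ) * (1 / N) ≤ 1 / 2 := by
          rw [mul_one_div, div_le_iff₀ hNpos]; linarith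
        have h11 : (1 : ℝ) / 2 ≤ s ^ (N / 2) := by
          have : s = 1 + -(1 / (N:ℝ)) := by rw [hs]; ring
          rw [this]; linarith
        have h12 : s ^ (3 * (N / 2)) ≤ s ^ N := pow_le_pow_of_le_one hspos.le hs1.le (by omega)
        have h13 : s ^ (3 * (N / 2)) = (s ^ (N / 2)) ^ 3 := by rw [← pow_mul, mul_comm]
        rw [h13] at h12
        have h14 : ((1 : ℝ) / 2) ^ 3 ≤ (s ^ (N / 2)) ^ 3 := by gcongr
        linarith
      have h7 : ∑ n ∈ Finset.range (N + 1), ‖T ^ n‖ ^ 2 ≤ 8 * ∑ n ∈ Finset.range (N + 1), s ^ n * ‖T ^ n‖ ^ 2 := by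
        rw [Finset.mul_sum]
        apply Finset.sum_le_sum
        intro n hn
        have hn' : n ≤ N := Nat.lt_succ_iff.1 (Finset.mem_range.1 hn)
        have h8 : s ^ N ≤ s ^ n := pow_le_pow_of_le_one hspos.le hs1.le hn'
        have h9 : 0 ≤ ‖T ^ n‖ ^ 2 := by positivity
        nlinarith
      have h8 : ((N : ℝ) + 1) * ‖T ^ N‖ ≤ ∑ n ∈ Finset.range (N + 1), ‖T ^ n‖ ^ 2 := by
        have h9 : ((N : ℝ) + 1) * ‖T ^ N‖ = ∑ n ∈ Finset.range (N + 1), ‖T ^ N‖ := by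
          rw [Finset.sum_const, Finset.card_range, nsmul_eq_mul]; push_cast; ring
        have h10 : ∑ n ∈ Finset.range (N + 1), ‖T ^ n‖ ^ 2 =
            ∑ n ∈ Finset.range (N + 1), ‖T ^ (N - n)‖ ^ 2 := by
          rw [← Finset.sum_range_reflect]
          apply Finset.sum_congr rfl
          intro n hn
          congr 3
        have h11 : ∑ n ∈ Finset.range (N + 1), ‖T ^ n‖ ^ 2 =
            ∑ n ∈ Finset.range (N + 1), (‖T ^ n‖ ^ 2 + ‖T ^ (N - n)‖ ^ 2) / 2 := by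
          rw [← Finset.sum_div, Finset.sum_add_distrib, ← h10]; ring
        rw [h9, h11]
        apply Finset.sum_le_sum
        intro n hn
        have hn' : n ≤ N := Nat.lt_succ_iff.1 (Finset.mem_range.1 hn)
        have h12 : ‖T ^ N‖ ≤ ‖T ^ n‖ * ‖T ^ (N - n)‖ := by
          calc ‖T ^ N‖ = ‖T ^ n * T ^ (N - n)‖ := by rw [← pow_add]; congr 2; omega
            _ ≤ _ := norm_mul_le _ _
        nlinarith [sq_nonneg (‖T ^ n‖ - ‖T ^ (N - n)‖)]
      have h9 : ∑' n : ℕ, s ^ n * ‖T ^ n‖ ^ 2 < N / η := by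
        rw [lt_div_iff₀ hη]; linarith
      have h10 : ((N : ℝ) + 1) * ‖T ^ N‖ ≤ 8 * (N / η) := by linarith
      have h11 : (N : ℝ) * ‖T ^ N‖ ≤ N * (8 / η) := by
        have : 8 * ((N : ℝ) / η) = N * (8 / η) := by ring
        rw [this] at h10
        linarith [norm_nonneg (T ^ N)]
      exact le_of_mul_le_mul_left h11 hNpos
    obtain ⟨C, hC⟩ := (((Finset.range N₀).image fun n => ‖T ^ n‖).bddAbove)
    refine ⟨max C (8 / η), fun n => ?_⟩
    rcases lt_or_ge n N₀ with h | h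
    · refine le_max_of_le_left (hC ?_)
      simp only [Finset.coe_image, mem_image, Finset.coe_range, mem_Iio]
      exact ⟨n, h, rfl⟩
    · exact le_max_of_le_right (hbound n h)
  · -- r > 1
    have hq : (1 / r) ^ 2 < 1 := by
      have : 1 / r < 1 := by rw [div_lt_one hr0]; exact h
      have h3 : 0 < 1 / r := by positivity
      nlinarith
    set Q := ∑' n : ℕ, ((1 / r) ^ 2) ^ n with hQ
    have hQs : Summable fun n : ℕ => ((1 / r) ^ 2) ^ n :=
      summable_geometric_of_lt_one (by positivity) hq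
    have hQ0 : 0 ≤ Q := tsum_nonneg fun n => by positivity
    obtain ⟨s, hs, hs1⟩ := exists_between (show max s₀ (1 - η / (Q + 1)) < 1 by
      rw [max_lt_iff]
      refine ⟨hs₀', ?_⟩
      have : 0 < η / (Q + 1) := by positivity
      linarith)
    have hs2 := (max_lt_iff.1 hs).1
    have hs3 := (max_lt_iff.1 hs).2
    have hspos : 0 < s := lt_trans hs₀ hs2
    refine ⟨s, hs2, hs1, ?_⟩
    have h3 : ∑' n : ℕ, s ^ n * (1 / r ^ n) ^ 2 ≤ Q := by
      have hle : ∀ n : ℕ, s ^ n * (1 / r ^ n) ^ 2 ≤ ((1 / r) ^ 2) ^ n := by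
        intro n
        have h4 : s ^ n ≤ 1 := pow_le_one₀ hspos.le hs1.le
        have h5 : (1 / r ^ n) ^ 2 = ((1 / r) ^ 2) ^ n := by
          rw [one_div, one_div, ← inv_pow, ← pow_mul, ← pow_mul, mul_comm]
        rw [h5]
        have h6 : 0 ≤ ((1 / r) ^ 2) ^ n := by positivity
        nlinarith
      have hsm : Summable fun n : ℕ => s ^ n * (1 / r ^ n) ^ 2 :=
        Summable.of_nonneg_of_le (fun n => by positivity) hle hQs
      exact hsm.tsum_le_tsum hle hQs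
    have h4 := hA s hspos hs1
    have h5 : Q ≤ η * (1 / (1 - s)) := by
      have h6 : 0 < 1 - s := by linarith
      rw [mul_one_div, le_div_iff₀ h6]
      have h7 : 1 - s < η / (Q + 1) := by linarith
      have h8 : Q * (1 - s) ≤ (Q + 1) * (η / (Q + 1)) := by
        apply mul_le_mul _ h7.le h6.le (by positivity)
        linarith
      have h9 : (Q + 1) * (η / (Q + 1)) = η := by field_simp
      linarith
    calc _ ≤ Q := h3
      _ ≤ η * (1 / (1 - s)) := h5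
      _ ≤ _ := by gcongr

end Pool.Agent.V11111.NH
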