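import Pool.Agent.V11111.NH.Kmeas
import Pool.Agent.V11111.NH.Seq

/-!
The main theorem.
-/

set_option autoImplicit false
open Set Topology Filter MeasureTheory

namespace Pool.Agent.V11111.NH

variable {X : Type*} [NormedAddCommGroup X] [NormedSpace ℂ X]

theorem exists_weights [CompleteSpace X] {T : X →L[ℂ] X}
    (hT : ¬ ∃ C : ℝ, ∀ n : ℕ, ‖T ^ n‖ ≤ C) {r : ℝ} (hr : 1 ≤ r)
    (h1 : ∀ n : ℕ, r ^ n ≤ ‖T ^ n‖)
    (h2 : ∀ ρ : ℝ, r < ρ → ∀ᶠ n : ℕ in atTop, ‖T ^ n‖ ≤ ρ ^ n) :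
    ∃ s A : ℕ → ℝ, (∀ k, 0 < s k) ∧ (∀ k, s k < 1) ∧ Tendsto s atTop (𝓝 1) ∧ (∀ k, 0 < A k) ∧
      Tendsto (fun k => (A k)⁻¹) atTop (𝓝 0) ∧
      (∀ k, HasSum (fun n : ℕ => s k ^ n * (‖T ^ n‖ / r ^ n) ^ 2) (A k)) ∧
      Tendsto (fun k => (A k)⁻¹ * ∑' n : ℕ, s k ^ n * (1 / r ^ n) ^ 2) atTop (𝓝 0) := by
  have hr0 : 0 < r := lt_of_lt_of_le one_pos hr
  have hex : ∀ k : ℕ, ∃ s : ℝ, 1 - 1 / ((k : ℝ) + 2) < s ∧ s < 1 ∧
      ∑' n : ℕ, s ^ n * (1 / r ^ n) ^ 2 ≤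
      1 / ((k : ℝ) + 1) * ∑' n : ℕ, s ^ n * (‖T ^ n‖ / r ^ n) ^ 2 := by
    intro k
    apply exists_s hT hr h1 h2
    · have : 1 / ((k : ℝ) + 2) < 1 := by
        rw [div_lt_one (by positivity)]
        have : (0 : ℝ) ≤ k := Nat.cast_nonneg k
        linarith
      linarith
    · have : 0 < 1 / ((k : ℝ) + 2) := by positivity
      linarith
    · positivity
  choose s hs1 hs2 hs3 using hex
  have hs0 : ∀ k, 0 < s k := by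
    intro k
    have : 1 / ((k : ℝ) + 2) < 1 := by
      rw [div_lt_one (by positivity)]
      have : (0 : ℝ) ≤ k := Nat.cast_nonneg k
      linarith
    linarith [hs1 k]
  have hsum := fun k => summable_weights (T := T) hr h2 (hs0 k) (hs2 k)
  set A : ℕ → ℝ := fun k => ∑' n : ℕ, s k ^ n * (‖T ^ n‖ / r ^ n) ^ 2 with hA
  have hAk : ∀ k : ℕ, (k : ℝ) + 1 ≤ A k := by
    intro k
    have h3 : ∑' n : ℕ, s k ^ n ≤ A k := by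
      apply (summable_geometric_of_lt_one (hs0 k).le (hs2 k)).tsum_le_tsum _ (hsum k)
      intro n
      have : 1 ≤ ‖T ^ n‖ / r ^ n := by rw [one_le_div (by positivity)]; exact h1 n
      have h3 : 1 ≤ (‖T ^ n‖ / r ^ n) ^ 2 := one_le_pow₀ this
      have h4 : 0 ≤ s k ^ n := pow_nonneg (hs0 k).le n
      nlinarith
    rw [tsum_geometric_of_lt_one (hs0 k).le (hs2 k)] at h3
    refine le_trans ?_ h3
    have h4 : 0 < 1 - s k := by linarith [hs2 k]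
    have h5 : 1 - s k < 1 / ((k : ℝ) + 2) := by linarith [hs1 k]
    rw [lt_div_iff₀ (by positivity)] at h5
    rw [← one_div, le_div_iff₀ h4]
    nlinarith
  have hA0 : ∀ k, 0 < A k := fun k => lt_of_lt_of_le (by positivity) (hAk k)
  have hinv : Tendsto (fun k : ℕ => 1 / ((k : ℝ) + 1)) atTop (𝓝 0) :=
    tendsto_one_div_add_atTop_nhds_zero_nat
  refine ⟨s, A, hs0, hs2, ?_, hA0, ?_, fun k => (hsum k).hasSum, ?_⟩
  · have h3 : Tendsto (fun k : ℕ => 1 - 1 / ((k : ℝ) + 1)) atTop (𝓝 1) := by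
      have := hinv.const_sub 1
      rwa [sub_zero] at this
    refine tendsto_of_tendsto_of_tendsto_of_le_of_le h3 tendsto_const_nhds (fun k => ?_)
      (fun k => (hs2 k).le)
    have h4 : 1 / ((k : ℝ) + 2) ≤ 1 / ((k : ℝ) + 1) := by
      apply one_div_le_one_div_of_le (by positivity); linarith
    have := hs1 k
    show 1 - 1 / ((k : ℝ) + 1) ≤ s k
    linarith
  · refine squeeze_zero (fun k => inv_nonneg.2 (hA0 k).le) (fun k => ?_) hinv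
    rw [← one_div]
    exact one_div_le_one_div_of_le (by positivity) (hAk k)
  · refine squeeze_zero (fun k => ?_) (fun k => ?_) hinv
    · have h3 : 0 ≤ ∑' n : ℕ, s k ^ n * (1 / r ^ n) ^ 2 := tsum_nonneg fun n =>
        mul_nonneg (pow_nonneg (hs0 k).le n) (by positivity)
      exact mul_nonneg (inv_nonneg.2 (hA0 k).le) h3
    · rw [inv_mul_le_iff₀ (hA0 k)]
      have := hs3 k
      calc _ ≤ _ := this
        _ = _ := by ring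

theorem summable_seq [CompleteSpace X] {T : X →L[ℂ] X} {r : ℝ} (hr : 1 ≤ r) {s A : ℝ}
    (hs0 : 0 < s)
    (hA : HasSum (fun n : ℕ => s ^ n * (‖T ^ n‖ / r ^ n) ^ 2) A)
    (a : ℕ → ℝ) (ha0 : ∀ n, 0 ≤ a n) (C : ℝ) (haC : ∀ n, a n ≤ C * ‖T ^ n‖ ^ 2) :
    Summable fun n : ℕ => s ^ n * (1 / r ^ n) ^ 2 * a n := by
  have hr0 : 0 < r := lt_of_lt_of_le one_pos hr
  refine Summable.of_nonneg_of_le (fun n => by have := ha0 n; positivity) (fun n => ?_)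
    (hA.summable.mul_left C)
  calc s ^ n * (1 / r ^ n) ^ 2 * a n ≤ s ^ n * (1 / r ^ n) ^ 2 * (C * ‖T ^ n‖ ^ 2) := by
        gcongr; exact haC n
    _ = _ := by ring

/-- The main theorem. -/
theorem main [CompleteSpace X]
    (hrefl : Function.Surjective (NormedSpace.inclusionInDoubleDual ℂ X))
    (T : X →L[ℂ] X) (hT : ¬ ∃ C : ℝ, ∀ n : ℕ, ‖T ^ n‖ ≤ C)
    (hev : ∀ (x : X) (ν : ℂ), T x = ν • x → x = 0) :
    ∃ (x : X) (f : StrongDual ℂ X), Dense (range fun n : ℕ => f ((T ^ n) x)) := by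
  by_contra hcon
  have hnum : ∀ (x : X) (f : StrongDual ℂ X), ¬ Dense (range fun n : ℕ => f ((T ^ n) x)) :=
    fun x f hd => hcon ⟨x, f, hd⟩
  obtain ⟨r, hr, h1, h2⟩ := exists_rate T hT
  have hr0 : 0 < r := lt_of_lt_of_le one_pos hr
  obtain ⟨x₀, f₀, c, δ, ε, hδ, hε, hb⟩ := baire T hnum
  obtain ⟨s, A, hs0, hs1, hs, hA0, hAi, hAs, hAr⟩ := exists_weights hT hr h1 h2
  have hTn : ∀ n, 0 < ‖T ^ n‖ := fun n => lt_of_lt_of_le (by positivity) (h1 n)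
  let _ : MeasurableSpace (Kset T x₀) := borel _
  have : BorelSpace (Kset T x₀) := ⟨rfl⟩
  let z : ℕ → Kset T x₀ := fun n =>
    ⟨StrongDual.toWeakDual (NormedSpace.inclusionInDoubleDual ℂ X
      (((‖T ^ n‖⁻¹ : ℝ) : ℂ) • (T ^ n) x₀)), by
      constructor
      · show ‖NormedSpace.inclusionInDoubleDual ℂ X (((‖T ^ n‖⁻¹ : ℝ) : ℂ) • (T ^ n) x₀)‖ ≤ ‖x₀‖
        refine (NormedSpace.double_dual_bound ℂ X _).trans ?_
        rw [norm_smul, Complex.norm_real, norm_inv, norm_norm, inv_mul_le_iff₀ (hTn n)]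
        exact (T ^ n).le_opNorm x₀
      · intro g hg
        show g (((‖T ^ n‖⁻¹ : ℝ) : ℂ) • (T ^ n) x₀) = 0
        rw [map_smul, hg, smul_zero]⟩
  have hz : ∀ n (f : StrongDual ℂ X), ‖(z n).1 f‖ ^ 2 = ‖f ((T ^ n) x₀)‖ ^ 2 / ‖T ^ n‖ ^ 2 := by
    intro n f
    have h3 : (z n).1 f = f (((‖T ^ n‖⁻¹ : ℝ) : ℂ) • (T ^ n) x₀) := rfl
    rw [h3, map_smul, norm_smul, Complex.norm_real, norm_inv, norm_norm, mul_pow, inv_pow]
    field_simp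
  let p : ℕ → ℕ → ℝ := fun k n => (A k)⁻¹ * (s k ^ n * (‖T ^ n‖ / r ^ n) ^ 2)
  have hp0 : ∀ k n, 0 ≤ p k n := fun k n =>
    mul_nonneg (inv_nonneg.2 (hA0 k).le) (mul_nonneg (pow_nonneg (hs0 k).le n) (by positivity))
  have hps : ∀ k, Summable (p k) := fun k => (hAs k).summable.mul_left _
  have hp1 : ∀ k, ∑' n, p k n = 1 := by
    intro k
    show ∑' n, (A k)⁻¹ * (s k ^ n * (‖T ^ n‖ / r ^ n) ^ 2) = 1
    rw [tsum_mul_left, (hAs k).tsum_eq, inv_mul_cancel₀ (hA0 k).ne']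
  set U : Ultrafilter ℕ := Filter.hyperfilter ℕ with hU
  have hUle : (U : Filter ℕ) ≤ atTop := by
    rw [hU]; exact Nat.hyperfilter_le_atTop
  obtain ⟨m, hm, hmG⟩ := exists_measure U z p hp0 hps hp1
  have hab : ∀ (f : StrongDual ℂ X) n, ‖f ((T ^ n) x₀)‖ ^ 2 ≤ (‖f‖ * ‖x₀‖) ^ 2 * ‖T ^ n‖ ^ 2 := by
    intro f n
    rw [← mul_pow]
    have : ‖f ((T ^ n) x₀)‖ ≤ ‖f‖ * ‖x₀‖ * ‖T ^ n‖ := by
      calc _ ≤ ‖f‖ * ‖(T ^ n) x₀‖ := f.le_opNorm _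
        _ ≤ ‖f‖ * (‖T ^ n‖ * ‖x₀‖) := by gcongr; exact (T ^ n).le_opNorm _
        _ = _ := by ring
    gcongr
  have hsm : ∀ (f : StrongDual ℂ X) k,
      Summable fun n : ℕ => s k ^ n * (1 / r ^ n) ^ 2 * ‖f ((T ^ n) x₀)‖ ^ 2 := fun f k =>
    summable_seq hr (hs0 k) (hAs k) _ (fun n => by positivity) _ (hab f)
  have hq : ∀ f : StrongDual ℂ X, Tendsto (fun k => (A k)⁻¹ *
      ∑' n : ℕ, s k ^ n * (1 / r ^ n) ^ 2 * ‖f ((T ^ n) x₀)‖ ^ 2) U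
      (𝓝 (∫ φ : Kset T x₀, ‖φ.1 f‖ ^ 2 ∂m)) := by
    intro f
    refine (hmG ⟨fun φ : Kset T x₀ => ‖φ.1 f‖ ^ 2, cont_ev T x₀ f⟩).congr fun k => ?_
    rw [← tsum_mul_left]
    apply tsum_congr
    intro n
    show (A k)⁻¹ * (s k ^ n * (‖T ^ n‖ / r ^ n) ^ 2) * ‖(z n).1 f‖ ^ 2 = _
    rw [hz]
    have := (hTn n).ne'
    field_simp
  have hN : ∀ f : StrongDual ℂ X, ∫ φ : Kset T x₀, ‖φ.1 (f.comp T)‖ ^ 2 ∂m =
      r ^ 2 * ∫ φ : Kset T x₀, ‖φ.1 f‖ ^ 2 ∂m := by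
    intro f
    have h3 := hq (f.comp T)
    have h4 := hq f
    have h5 : Tendsto (fun k => (A k)⁻¹ * ‖f x₀‖ ^ 2 + s k / r ^ 2 * ((A k)⁻¹ *
      ∑' n : ℕ, s k ^ n * (1 / r ^ n) ^ 2 * ‖(f.comp T) ((T ^ n) x₀)‖ ^ 2)) U
      (𝓝 (0 * ‖f x₀‖ ^ 2 + 1 / r ^ 2 * ∫ φ : Kset T x₀, ‖φ.1 (f.comp T)‖ ^ 2 ∂m)) :=
      ((hAi.mono_left hUle).mul_const _).add (((hs.mono_left hUle).div_const _).mul h3)
    have h6 : ∀ k, (A k)⁻¹ * ∑' n : ℕ, s k ^ n * (1 / r ^ n) ^ 2 * ‖f ((T ^ n) x₀)‖ ^ 2 =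
        (A k)⁻¹ * ‖f x₀‖ ^ 2 + s k / r ^ 2 * ((A k)⁻¹ *
      ∑' n : ℕ, s k ^ n * (1 / r ^ n) ^ 2 * ‖(f.comp T) ((T ^ n) x₀)‖ ^ 2) := by
      intro k
      rw [(hsm f k).tsum_eq_zero_add]
      have h7 : ∀ n : ℕ, s k ^ (n + 1) * (1 / r ^ (n + 1)) ^ 2 * ‖f ((T ^ (n + 1)) x₀)‖ ^ 2 =
          s k / r ^ 2 * (s k ^ n * (1 / r ^ n) ^ 2 * ‖(f.comp T) ((T ^ n) x₀)‖ ^ 2) := by
        intro n
        have h8 : (f.comp T) ((T ^ n) x₀) = f ((T ^ (n + 1)) x₀) := by rw [pow_succ']; rfl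
        rw [h8]
        field_simp
        ring
      simp only [h7]
      rw [tsum_mul_left]
      simp
      ring
    have h7 := tendsto_nhds_unique (h4.congr h6) h5
    rw [h7]
    field_simp
    ring
  have hzero := int_zero hrefl T hev hnum hr x₀ m hN f₀
  have h3 := hq f₀
  rw [hzero] at h3
  have h4 : Tendsto (fun k => 2 * ((A k)⁻¹ *
      ∑' n : ℕ, s k ^ n * (1 / r ^ n) ^ 2 * ‖f₀ ((T ^ n) x₀)‖ ^ 2) + 2 * ‖c‖ ^ 2 * ((A k)⁻¹ *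
      ∑' n : ℕ, s k ^ n * (1 / r ^ n) ^ 2)) U (𝓝 (2 * 0 + 2 * ‖c‖ ^ 2 * 0)) :=
    (h3.const_mul 2).add ((hAr.mono_left hUle).const_mul _)
  have h5 : ε ^ 2 ≤ 2 * 0 + 2 * ‖c‖ ^ 2 * 0 := by
    refine ge_of_tendsto h4 (Eventually.of_forall fun k => ?_)
    have hsr : Summable fun n : ℕ => s k ^ n * (1 / r ^ n) ^ 2 := by
      have := summable_seq hr (hs0 k) (hAs k) (fun _ => 1) (fun n => zero_le_one) 1 (fun n => by
        have h6 : 1 ≤ ‖T ^ n‖ := le_trans (one_le_pow₀ hr) (h1 n)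
        nlinarith)
      simpa using this
    have h6 : ε ^ 2 = ∑' n, p k n * ε ^ 2 := by rw [tsum_mul_right, hp1, one_mul]
    have h7 : 2 * ((A k)⁻¹ *
      ∑' n : ℕ, s k ^ n * (1 / r ^ n) ^ 2 * ‖f₀ ((T ^ n) x₀)‖ ^ 2) + 2 * ‖c‖ ^ 2 * ((A k)⁻¹ *
      ∑' n : ℕ, s k ^ n * (1 / r ^ n) ^ 2) = ∑' n : ℕ, (2 * ((A k)⁻¹ * (s k ^ n * (1 / r ^ n) ^ 2 *
        ‖f₀ ((T ^ n) x₀)‖ ^ 2)) + 2 * ‖c‖ ^ 2 * ((A k)⁻¹ * (s k ^ n * (1 / r ^ n) ^ 2))) := by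
      rw [Summable.tsum_add (((hsm f₀ k).mul_left _).mul_left _) ((hsr.mul_left _).mul_left _),
        tsum_mul_left, tsum_mul_left, tsum_mul_left, tsum_mul_left]
    rw [h6, h7]
    refine Summable.tsum_le_tsum (fun n => ?_) ((hps k).mul_right _)
      ((((hsm f₀ k).mul_left _).mul_left _).add ((hsr.mul_left _).mul_left _))
    have h8 : ε * ‖T ^ n‖ ≤ ‖f₀ ((T ^ n) x₀)‖ + ‖c‖ := by
      have := hb x₀ f₀ n (by simpa using hδ) (by simpa using hδ)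
      exact this.trans (norm_sub_le _ _)
    have h9 : (ε * ‖T ^ n‖) ^ 2 ≤ 2 * ‖f₀ ((T ^ n) x₀)‖ ^ 2 + 2 * ‖c‖ ^ 2 := by
      have h10 : (ε * ‖T ^ n‖) ^ 2 ≤ (‖f₀ ((T ^ n) x₀)‖ + ‖c‖) ^ 2 := by
        have : 0 ≤ ε * ‖T ^ n‖ := by positivity
        gcongr
      nlinarith [sq_nonneg (‖f₀ ((T ^ n) x₀)‖ - ‖c‖)]
    have h10 : 0 ≤ (A k)⁻¹ * (s k ^ n * (1 / r ^ n) ^ 2) :=
      mul_nonneg (inv_nonneg.2 (hA0 k).le) (mul_nonneg (pow_nonneg (hs0 k).le n) (by positivity))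
    calc p k n * ε ^ 2 = (A k)⁻¹ * (s k ^ n * (1 / r ^ n) ^ 2) * (ε * ‖T ^ n‖) ^ 2 := by
          show (A k)⁻¹ * (s k ^ n * (‖T ^ n‖ / r ^ n) ^ 2) * ε ^ 2 = _
          ring
      _ ≤ (A k)⁻¹ * (s k ^ n * (1 / r ^ n) ^ 2) * (2 * ‖f₀ ((T ^ n) x₀)‖ ^ 2 + 2 * ‖c‖ ^ 2) := by
          gcongr
      _ = _ := by ring
  have : 0 < ε ^ 2 := by positivity
  linarith

end Pool.Agent.V11111.NH
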