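import Mathlib

/-!
Weak mixing of isometries without coisometric eigenvectors.
-/

set_option autoImplicit false
open Set Topology Filter ComplexConjugate

namespace Pool.Agent.V11111.NH

variable {H : Type*} [NormedAddCommGroup H] [InnerProductSpace ℂ H] [CompleteSpace H]

theorem exists_eigen (R W : H →L[ℂ] H) (hR : 0 ≤ R) (hR0 : R ≠ 0) (C : ℝ)
    (hC : ∀ (n : ℕ) (e : Fin n → H), Orthonormal ℂ e → ∑ i, (inner ℂ (R (e i)) (e i)).re ≤ C)
    (hW : W * R = R * W) : ∃ (h : H) (ν : ℂ), h ≠ 0 ∧ W h = ν • h := by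
  have hnt : Nontrivial H := by
    by_contra hn
    rw [not_nontrivial_iff_subsingleton] at hn
    apply hR0
    ext x; exact Subsingleton.elim _ _
  set l : ℝ := ‖R‖ with hl
  have hl0 : 0 < l := norm_pos_iff.2 hR0
  set f : ℝ → ℝ := fun t => max (t - l / 2) 0 with hf
  have hfc : Continuous f := by rw [hf]; fun_prop
  have hsa : IsSelfAdjoint R := IsSelfAdjoint.of_nonneg hR
  set A := cfc f R with hA
  have hA0 : A ≠ 0 := by
    intro h0
    have h1 : l ∈ spectrum ℝ R := CStarAlgebra.norm_mem_spectrum_of_nonneg hR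
    have h2 : f l ∈ spectrum ℝ A := by
      rw [hA, cfc_map_spectrum (R := ℝ) f R hsa hfc.continuousOn]
      exact ⟨l, h1, rfl⟩
    rw [h0, spectrum.zero_eq] at h2
    rw [mem_singleton_iff, hf] at h2
    have : max (l - l / 2) 0 = 0 := h2
    have h3 := le_max_left (l - l / 2) 0
    linarith
  have hAsa : IsSelfAdjoint A := cfc_predicate f R
  have hquad : ∀ g : H, l / 2 * ‖A g‖ ^ 2 ≤ (inner ℂ (R (A g)) (A g)).re := by
    intro g
    have h1 : 0 ≤ cfc (fun t => f t * (t - l / 2) * f t) R := by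
      apply cfc_nonneg
      intro t _
      by_cases ht : t - l / 2 ≤ 0
      · have : f t = 0 := max_eq_right ht
        rw [this]; simp
      · rw [not_le] at ht
        have : f t = t - l / 2 := max_eq_left ht.le
        rw [this]; positivity
    have h2 : cfc (fun t => f t * (t - l / 2) * f t) R = A * (R - algebraMap ℝ _ (l / 2)) * A := by
      rw [cfc_mul (fun t => f t * (t - l / 2)) f R (by fun_prop) (by fun_prop),
        cfc_mul f (fun t => t - l / 2) R (by fun_prop) (by fun_prop)]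
      congr 2
      rw [cfc_sub (fun t => t) (fun _ => l / 2) R (by fun_prop) (by fun_prop)]
      rw [cfc_id' ℝ R, cfc_const (l / 2) R]
    rw [h2, ContinuousLinearMap.nonneg_iff_isPositive] at h1
    have h3 := h1.re_inner_nonneg_left g
    have h4 : inner ℂ ((A * (R - algebraMap ℝ _ (l / 2)) * A) g) g =
        inner ℂ (R (A g)) (A g) - (l / 2 : ℝ) * inner ℂ (A g) (A g) := by
      have h5 : (A * (R - algebraMap ℝ _ (l / 2)) * A) g = A (R (A g) - (l / 2 : ℝ) • A g) := by
        simp [Algebra.algebraMap_eq_smul_one]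
      rw [h5]
      have h6 : inner ℂ (A (R (A g) - (l / 2 : ℝ) • A g)) g =
          inner ℂ (R (A g) - (l / 2 : ℝ) • A g) (A g) := by
        have h7 : ContinuousLinearMap.adjoint A = A := hAsa.star_eq
        calc inner ℂ (A (R (A g) - (l / 2 : ℝ) • A g)) g
            = inner ℂ ((ContinuousLinearMap.adjoint A) (R (A g) - (l / 2 : ℝ) • A g)) g := by
              rw [h7]
          _ = _ := ContinuousLinearMap.adjoint_inner_left _ _ _
      rw [h6, inner_sub_left]
      congr 1
      rw [RCLike.real_smul_eq_coe_smul (K := ℂ), inner_smul_left]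
      congr 1
      exact Complex.conj_ofReal _
    rw [h4] at h3
    have h5 : (RCLike.re (inner ℂ (R (A g)) (A g) - (l / 2 : ℝ) * inner ℂ (A g) (A g)) : ℝ) =
        (inner ℂ (R (A g)) (A g)).re - l / 2 * ‖A g‖ ^ 2 := by
      rw [inner_self_eq_norm_sq_to_K]
      simp only [map_sub, RCLike.re_to_complex, Complex.re_ofReal_mul]
      norm_cast
    rw [h5] at h3
    linarith
  set S : Submodule ℂ H := LinearMap.range (A : H →ₗ[ℂ] H) with hS
  have hfin : FiniteDimensional ℂ S := by
    by_contra hnf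
    obtain ⟨n, hn⟩ := exists_nat_gt (2 * C / l)
    have hrank : (n : Cardinal) ≤ Module.rank ℂ S := by
      have h1 : Cardinal.aleph0 ≤ Module.rank ℂ S := by
        by_contra hlt
        rw [not_le] at hlt
        exact hnf (Module.rank_lt_aleph0_iff.1 hlt)
      exact le_trans (Cardinal.natCast_lt_aleph0).le h1
    obtain ⟨s, hs1, hs2⟩ := le_rank_iff_exists_linearIndependent_finset.1 hrank
    set Q : Submodule ℂ S := Submodule.span ℂ (s : Set S) with hQ
    have : FiniteDimensional ℂ Q := FiniteDimensional.span_finset ℂ s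
    have hQn : Module.finrank ℂ Q = n := by
      rw [hQ, finrank_span_finset_eq_card hs2, hs1]
    have ob := stdOrthonormalBasis ℂ Q
    have h1 := hC (Module.finrank ℂ Q) (fun i => ((ob i : S) : H)) (by
      have h2 := ob.orthonormal
      have h3 := h2.comp_linearIsometry Q.subtypeₗᵢ
      exact h3.comp_linearIsometry S.subtypeₗᵢ)
    have h2 : ∀ i, l / 2 ≤ (inner ℂ (R ((ob i : S) : H)) ((ob i : S) : H)).re := by
      intro i
      obtain ⟨g, hg⟩ := LinearMap.mem_range.1 ((ob i : S).2)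
      have h3 := hquad g
      have h4 : A g = ((ob i : S) : H) := hg
      rw [h4] at h3
      have h5 : ‖((ob i : S) : H)‖ = 1 := ob.orthonormal.1 i
      rw [h5] at h3
      simpa using h3
    have h3 : (n : ℝ) * (l / 2) ≤ C := by
      calc (n : ℝ) * (l / 2) = ∑ i : Fin (Module.finrank ℂ Q), l / 2 := by
            rw [Finset.sum_const, Finset.card_univ, Fintype.card_fin, hQn, nsmul_eq_mul]
        _ ≤ _ := Finset.sum_le_sum fun i _ => h2 i
        _ ≤ C := h1
    rw [div_lt_iff₀ hl0] at hn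
    linarith
  have hSnt : Nontrivial S := by
    rw [Submodule.nontrivial_iff_ne_bot]
    intro hb
    apply hA0
    ext g
    have : A g ∈ S := LinearMap.mem_range.2 ⟨g, rfl⟩
    rw [hb, Submodule.mem_bot] at this
    rw [this]; rfl
  have hcomm : Commute R W := hW.symm
  have hcomm' : Commute A W := hsa.commute_cfc hcomm f
  have hmap : ∀ x ∈ S, (W : H →ₗ[ℂ] H) x ∈ S := by
    intro x hx
    obtain ⟨g, rfl⟩ := LinearMap.mem_range.1 hx
    refine LinearMap.mem_range.2 ⟨W g, ?_⟩
    have := congrArg (fun Z : H →L[ℂ] H => Z g) hcomm'.eq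
    exact this
  obtain ⟨ν, hν⟩ := Module.End.exists_eigenvalue ((W : H →ₗ[ℂ] H).restrict hmap)
  obtain ⟨v, hv⟩ := hν.exists_hasEigenvector
  refine ⟨v, ν, ?_, ?_⟩
  · intro h0
    exact hv.2 (Subtype.ext h0)
  · have h1 := hv.apply_eq_smul
    have h2 := congrArg (Subtype.val) h1
    exact h2

theorem exists_ulim (U : Ultrafilter ℕ) (a : ℕ → ℂ) (C : ℝ) (h : ∀ n, ‖a n‖ ≤ C) :
    ∃ L : ℂ, Tendsto a U (𝓝 L) := by
  obtain ⟨L, _, hL⟩ := (isCompact_closedBall (0 : ℂ) C).ultrafilter_le_nhds (U.map a) (by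
    rw [le_principal_iff]
    show ∀ᶠ n in (U : Filter ℕ), a n ∈ Metric.closedBall (0 : ℂ) C
    refine Filter.Eventually.of_forall fun n => ?_
    simpa using h n)
  exact ⟨L, hL⟩

theorem exists_form (U : Ultrafilter ℕ) (b : ℕ → H → H → ℂ)
    (ha1 : ∀ J g g' h, b J (g + g') h = b J g h + b J g' h)
    (hs1 : ∀ J (c : ℂ) g h, b J (c • g) h = conj c * b J g h)
    (ha2 : ∀ J g h h', b J g (h + h') = b J g h + b J g h')
    (hs2 : ∀ J (c : ℂ) g h, b J g (c • h) = c * b J g h)
    (C : ℝ) (hC : ∀ J g h, ‖b J g h‖ ≤ C * ‖g‖ * ‖h‖) :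
    ∃ R : H →L[ℂ] H, ∀ g h, Tendsto (fun J => b J g h) U (𝓝 (inner ℂ (R g) h)) := by
  have hex := fun g h => exists_ulim U (fun J => b J g h) (C * ‖g‖ * ‖h‖) (fun J => hC J g h)
  choose L hL using hex
  let B₀ : H →ₗ⋆[ℂ] H →ₗ[ℂ] ℂ := LinearMap.mk₂'ₛₗ (starRingEnd ℂ) (RingHom.id ℂ) L
    (fun g g' h => tendsto_nhds_unique (hL (g + g') h) (by
      have := (hL g h).add (hL g' h)
      exact this.congr fun J => (ha1 J g g' h).symm))
    (fun c g h => tendsto_nhds_unique (hL (c • g) h) (by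
      have := (hL g h).const_mul (conj c)
      exact this.congr fun J => (hs1 J c g h).symm))
    (fun g h h' => tendsto_nhds_unique (hL g (h + h')) (by
      have := (hL g h).add (hL g h')
      exact this.congr fun J => (ha2 J g h h').symm))
    (fun c g h => tendsto_nhds_unique (hL g (c • h)) (by
      have := (hL g h).const_mul c
      exact this.congr fun J => (hs2 J c g h).symm))
  have hbd : ∀ g h, ‖B₀ g h‖ ≤ C * ‖g‖ * ‖h‖ := fun g h =>
    le_of_tendsto (hL g h).norm (Eventually.of_forall fun J => hC J g h)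
  let B := LinearMap.mkContinuous₂ B₀ C hbd
  refine ⟨InnerProductSpace.continuousLinearMapOfBilin B, fun g h => ?_⟩
  rw [InnerProductSpace.continuousLinearMapOfBilin_apply]
  exact hL g h

/-- The Wiener lemma. -/
theorem weakMixing (V : H →L[ℂ] H) (hV : ∀ u, ‖V u‖ = ‖u‖)
    (hno : ∀ (h : H) (ν : ℂ), (ContinuousLinearMap.adjoint V) h = ν • h → h = 0) (w h : H) :
    Tendsto (fun J : ℕ => (J : ℝ)⁻¹ * ∑ j ∈ Finset.range J, ‖(inner ℂ h ((V ^ j) w) : ℂ)‖ ^ 2)
      atTop (𝓝 0) := by
  rw [tendsto_iff_ultrafilter]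
  intro U hU
  set u : ℕ → H := fun j => (V ^ j) w with hu
  have hun : ∀ j, ‖u j‖ = ‖w‖ := by
    intro j
    induction j with
    | zero => simp [hu]
    | succ j ih => 
      have : u (j + 1) = V (u j) := by
        simp only [hu]; rw [pow_succ']; rfl
      rw [this, hV, ih]
  have huV : ∀ j, V (u j) = u (j + 1) := fun j => by
    simp only [hu]; rw [pow_succ']; rfl
  let b : ℕ → H → H → ℂ := fun J g h =>
    ((J : ℂ))⁻¹ * ∑ j ∈ Finset.range J, inner ℂ g (u j) * inner ℂ (u j) h
  have hterm : ∀ j g h, ‖(inner ℂ g (u j) * inner ℂ (u j) h : ℂ)‖ ≤ ‖w‖ ^ 2 * ‖g‖ * ‖h‖ := by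
    intro j g h
    rw [norm_mul]
    calc ‖(inner ℂ g (u j) : ℂ)‖ * ‖(inner ℂ (u j) h : ℂ)‖ ≤ (‖g‖ * ‖u j‖) * (‖u j‖ * ‖h‖) :=
          mul_le_mul (norm_inner_le_norm _ _) (norm_inner_le_norm _ _) (norm_nonneg _)
            (by positivity)
      _ = _ := by rw [hun]; ring
  have hC : ∀ J g h, ‖b J g h‖ ≤ ‖w‖ ^ 2 * ‖g‖ * ‖h‖ := by
    intro J g h
    simp only [b]
    rw [norm_mul, norm_inv, Complex.norm_natCast]
    rcases Nat.eq_zero_or_pos J with h0 | h0
    · subst h0; simp; positivity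
    · have hJ : (0 : ℝ) < J := by exact_mod_cast h0
      rw [inv_mul_le_iff₀ hJ]
      calc _ ≤ ∑ j ∈ Finset.range J, ‖(inner ℂ g (u j) * inner ℂ (u j) h : ℂ)‖ := norm_sum_le _ _
        _ ≤ ∑ j ∈ Finset.range J, ‖w‖ ^ 2 * ‖g‖ * ‖h‖ :=
          Finset.sum_le_sum fun j _ => hterm j g h
        _ = _ := by rw [Finset.sum_const, Finset.card_range, nsmul_eq_mul]
  obtain ⟨R, hR⟩ := exists_form U b
    (fun J g g' h => by
      simp only [b, inner_add_left, add_mul, Finset.sum_add_distrib, mul_add])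
    (fun J c g h => by
      simp only [b, inner_smul_left, mul_assoc, ← Finset.mul_sum]
      ring)
    (fun J g h h' => by
      simp only [b, inner_add_right, mul_add, Finset.sum_add_distrib])
    (fun J c g h => by
      simp only [b, inner_smul_right]
      rw [Finset.mul_sum, Finset.mul_sum, Finset.mul_sum]
      apply Finset.sum_congr rfl
      intro j _; ring) (‖w‖ ^ 2) hC
  have hdiag : ∀ J g, b J g g = (((J : ℝ)⁻¹ * ∑ j ∈ Finset.range J,
      ‖(inner ℂ g (u j) : ℂ)‖ ^ 2 : ℝ) : ℂ) := by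
    intro J g
    simp only [b]
    push_cast
    congr 1
    apply Finset.sum_congr rfl
    intro j _
    rw [← inner_conj_symm (u j) g, Complex.mul_conj, Complex.normSq_eq_norm_sq]
    push_cast; rfl
  have hre : ∀ g, Tendsto (fun J : ℕ => (J : ℝ)⁻¹ * ∑ j ∈ Finset.range J,
      ‖(inner ℂ g (u j) : ℂ)‖ ^ 2) U (𝓝 (inner ℂ (R g) g : ℂ).re) := by
    intro g
    have h1 := (Complex.continuous_re.tendsto _).comp (hR g g)
    refine h1.congr fun J => ?_
    simp only [Function.comp, hdiag, Complex.ofReal_re]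
  have him : ∀ g, (inner ℂ (R g) g : ℂ).im = 0 := by
    intro g
    have h1 := (Complex.continuous_im.tendsto _).comp (hR g g)
    refine tendsto_nhds_unique h1 ?_
    refine tendsto_const_nhds.congr fun J => ?_
    simp only [Function.comp, hdiag, Complex.ofReal_im]
  have hpos : 0 ≤ R := by
    rw [ContinuousLinearMap.nonneg_iff_isPositive, ContinuousLinearMap.isPositive_iff_complex]
    intro g
    refine ⟨?_, ?_⟩
    · apply Complex.ext
      · simp
      · rw [him g]; simp
    · refine ge_of_tendsto (hre g) (Eventually.of_forall fun J => ?_)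
      positivity
  have htr : ∀ (n : ℕ) (e : Fin n → H), Orthonormal ℂ e →
      ∑ i, (inner ℂ (R (e i)) (e i)).re ≤ ‖w‖ ^ 2 := by
    intro n e he
    have h1 : Tendsto (fun J : ℕ => ∑ i, ((J : ℝ)⁻¹ * ∑ j ∈ Finset.range J,
      ‖(inner ℂ (e i) (u j) : ℂ)‖ ^ 2)) U (𝓝 (∑ i, (inner ℂ (R (e i)) (e i)).re)) :=
      tendsto_finsetSum _ fun i _ => hre (e i)
    refine le_of_tendsto h1 (Eventually.of_forall fun J => ?_)
    rw [← Finset.mul_sum, Finset.sum_comm]
    rcases Nat.eq_zero_or_pos J with h0 | h0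
    · subst h0; simp
    · have hJ : (0 : ℝ) < J := by exact_mod_cast h0
      rw [inv_mul_le_iff₀ hJ]
      calc _ ≤ ∑ j ∈ Finset.range J, ‖w‖ ^ 2 := by
            apply Finset.sum_le_sum
            intro j _
            rw [← hun j]
            exact he.sum_inner_products_le (x := u j)
        _ = _ := by rw [Finset.sum_const, Finset.card_range, nsmul_eq_mul]
  set W := ContinuousLinearMap.adjoint V with hW
  have hVV : ∀ x y, inner ℂ (V x) (V y) = (inner ℂ x y : ℂ) := by
    have h1 := (ContinuousLinearMap.norm_map_iff_adjoint_comp_self V).1 hV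
    intro x y
    rw [← ContinuousLinearMap.adjoint_inner_left]
    have h2 := congrArg (fun Z : H →L[ℂ] H => Z x) h1
    have h3 : (ContinuousLinearMap.adjoint V) (V x) = x := h2
    rw [h3]
  have hcomm : W * R = R * W := by
    ext g
    apply ext_inner_right ℂ
    intro k
    have e1 : inner ℂ ((W * R) g) k = (inner ℂ (R g) (V k) : ℂ) := by
      show inner ℂ (W (R g)) k = _
      rw [hW, ContinuousLinearMap.adjoint_inner_left]
    have e2 : (R * W) g = R (W g) := rfl
    rw [e1, e2]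
    have h1 := hR g (V k)
    have h2 := hR (W g) k
    have h3 : Tendsto (fun J => b J g (V k) - b J (W g) k) U (𝓝 0) := by
      have h4 : Tendsto (fun J : ℕ => ((J : ℝ))⁻¹ * (2 * (‖w‖ ^ 2 * ‖g‖ * ‖V k‖))) U (𝓝 0) := by
        have : Tendsto (fun J : ℕ => ((J : ℝ))⁻¹ * (2 * (‖w‖ ^ 2 * ‖g‖ * ‖V k‖))) atTop (𝓝 0) := by
          have := (tendsto_inv_atTop_nhds_zero_nat (𝕜 := ℝ)).mul_const
            (2 * (‖w‖ ^ 2 * ‖g‖ * ‖V k‖))
          rwa [zero_mul] at this
        exact this.mono_left hU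
      refine squeeze_zero_norm (fun J => ?_) h4
      have h5 : b J g (V k) - b J (W g) k = ((J : ℂ))⁻¹ *
          ((inner ℂ g (u 0) * inner ℂ (u 0) (V k)) - inner ℂ g (u J) * inner ℂ (u J) (V k)) := by
        simp only [b]
        rw [← mul_sub, ← Finset.sum_sub_distrib]
        congr 1
        rw [← Finset.sum_range_sub' (fun j => (inner ℂ g (u j) * inner ℂ (u j) (V k) : ℂ))]
        apply Finset.sum_congr rfl
        intro j _
        congr 1
        rw [hW, ContinuousLinearMap.adjoint_inner_left, huV, ← huV j, hVV]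
      rw [h5, norm_mul, norm_inv, Complex.norm_natCast]
      gcongr
      calc _ ≤ ‖(inner ℂ g (u 0) * inner ℂ (u 0) (V k) : ℂ)‖ +
            ‖(inner ℂ g (u J) * inner ℂ (u J) (V k) : ℂ)‖ := norm_sub_le _ _
        _ ≤ _ := by
          have := hterm 0 g (V k)
          have := hterm J g (V k)
          linarith
    have h4 := h1.sub h2
    have h5 := tendsto_nhds_unique h4 h3
    exact sub_eq_zero.1 h5
  have hR0 : R = 0 := by
    by_contra hne
    obtain ⟨v, ν, hv, hWv⟩ := exists_eigen R W hpos hne _ htr hcomm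
    exact hv (hno v ν hWv)
  have := hre h
  rw [hR0] at this
  have h0 : (inner ℂ ((0 : H →L[ℂ] H) h) h : ℂ).re = 0 := by simp
  rw [h0] at this
  exact this

end Pool.Agent.V11111.NH
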